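import Pool.Agent.T9h61.StrongC

/-! # Abscissas of the violations of Hall's inequality: local and global counts -/

set_option autoImplicit false

namespace T9h23.Ab

open Finset
open scoped Classical

/-- `w` is an abscissa with `(y ^ 2 - w ^ 3) ^ 2 < A |w|`, `y ^ 2 ≠ w ^ 3`, for some `y` -/
def Exc (A : ℕ) (w : ℤ) : Prop := ∃ y : ℤ, y ^ 2 ≠ w ^ 3 ∧ (y ^ 2 - w ^ 3) ^ 2 < A * |w|

/-- **Repulsion.** -/
theorem gap (A : ℕ) : ∃ c : ℝ, 0 < c ∧ ∀ x x' : ℤ, 0 < x → x < x' → Exc A x → Exc A x' →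
    c * (x : ℝ) ^ (1 / 4 : ℝ) ≤ (x' : ℝ) - x := by
  obtain ⟨c, hc, h⟩ := Pool.Agent.T9h61.Strong.powers ((A : ℝ) + 1) (1 / 2) (by positivity) (by norm_num) (by norm_num)
  refine ⟨c, hc, ?_⟩
  have key : ∀ x y : ℤ, 0 < x → (y ^ 2 - x ^ 3) ^ 2 < A * |x| →
      (|y ^ 2 - x ^ 3| : ℝ) ≤ ((A : ℝ) + 1) * (x : ℝ) ^ (1 / 2 : ℝ) := by
    intro x y hx hy
    have hx0 : (0 : ℝ) < x := by exact_mod_cast hx
    rw [abs_of_pos hx] at hy
    have h1 : ((y : ℝ) ^ 2 - (x : ℝ) ^ 3) ^ 2 < A * x := by exact_mod_cast hy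
    have h2 : (((A : ℝ) + 1) * (x : ℝ) ^ (1 / 2 : ℝ)) ^ 2 = ((A : ℝ) + 1) ^ 2 * x := by
      rw [mul_pow, ← Real.rpow_natCast ((x : ℝ) ^ (1 / 2 : ℝ)) 2, ← Real.rpow_mul hx0.le]
      norm_num
    refine abs_le_of_sq_le_sq ?_ (by positivity)
    rw [h2]
    have h3 : (A : ℝ) ≤ ((A : ℝ) + 1) ^ 2 := by nlinarith [(Nat.cast_nonneg A : (0 : ℝ) ≤ A)]
    nlinarith
  intro x x' hx hlt ⟨y, _, hy⟩ ⟨y', _, hy'⟩
  have h1 := h x y x' y' hx hlt (key x y hx hy) (key x' y' (by omega) hy')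
  have h2 : min ((1 - (1 / 2 : ℝ)) / 2) ((2 - 1 / 2) / 5) = 1 / 4 := by
    rw [min_eq_left] <;> norm_num
  rwa [h2] at h1

/-- separated points in an interval -/
theorem card_sep (S : Finset ℤ) (a T γ : ℝ) (hγ : 0 < γ) (hT : 0 ≤ T) (hS : ∀ w ∈ S, a ≤ w ∧ (w : ℝ) ≤ a + T)
    (hsep : ∀ w ∈ S, ∀ w' ∈ S, w < w' → γ ≤ (w' : ℝ) - w) : (S.card : ℝ) ≤ T / γ + 1 := by
  have h1 : S.card ≤ (range (⌊T / γ⌋₊ + 1)).card := by
    refine Finset.card_le_card_of_injOn (fun w => ⌊((w : ℝ) - a) / γ⌋₊) ?_ ?_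
    · intro w hw
      rw [Finset.mem_coe] at hw
      rw [Finset.mem_coe, mem_range, Nat.lt_succ_iff]
      apply Nat.floor_mono
      have := (hS w hw).2
      gcongr
      linarith
    · have key : ∀ w ∈ S, ∀ w' ∈ S, w < w' → ⌊((w : ℝ) - a) / γ⌋₊ ≠ ⌊((w' : ℝ) - a) / γ⌋₊ := by
        intro w hw w' hw' hlt
        have h2 := hsep w hw w' hw' hlt
        have h3 : ((w : ℝ) - a) / γ + 1 ≤ ((w' : ℝ) - a) / γ := by
          rw [div_add_one hγ.ne']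
          gcongr
          linarith
        have h4 : 0 ≤ ((w : ℝ) - a) / γ := by
          have := (hS w hw).1
          apply div_nonneg _ hγ.le
          linarith
        have h5 : ⌊((w : ℝ) - a) / γ⌋₊ + 1 ≤ ⌊((w' : ℝ) - a) / γ⌋₊ := by
          rw [← Nat.floor_add_one h4]
          exact Nat.floor_mono h3
        omega
      intro w hw w' hw' heq
      rw [Finset.mem_coe] at hw hw'
      rcases lt_trichotomy w w' with h | h | h
      · exact absurd heq (key w hw w' hw' h)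
      · exact h
      · exact absurd heq.symm (key w' hw' w hw h)
  rw [card_range] at h1
  have h2 : ((⌊T / γ⌋₊ : ℕ) : ℝ) ≤ T / γ := Nat.floor_le (by positivity)
  calc (S.card : ℝ) ≤ ((⌊T / γ⌋₊ + 1 : ℕ) : ℝ) := by exact_mod_cast h1
    _ ≤ _ := by push_cast; linarith

/-- **Local count.** -/
theorem local_count (A : ℕ) : ∃ C : ℝ, 1 ≤ C ∧ ∀ W T : ℝ, 1 ≤ W → 0 ≤ T → ∀ S : Finset ℤ,
    (∀ w ∈ S, W ≤ w ∧ (w : ℝ) ≤ W + T ∧ Exc A w) → (S.card : ℝ) ≤ C * (T / W ^ (1 / 4 : ℝ)) + 1 := by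
  obtain ⟨c, hc, h⟩ := gap A
  refine ⟨1 / c + 1, by have : 0 < 1 / c := by positivity
                        linarith, ?_⟩
  intro W T hW hT S hS
  have hW0 : 0 < W := by linarith
  have h1 := card_sep S W T (c * W ^ (1 / 4 : ℝ)) (by positivity) hT (fun w hw => ⟨(hS w hw).1, (hS w hw).2.1⟩) (by
    intro w hw w' hw' hlt
    have h2 := (hS w hw).1
    have hw0 : 0 < w := by
      have : (0 : ℝ) < w := by linarith
      exact_mod_cast this
    refine le_trans ?_ (h w w' hw0 hlt (hS w hw).2.2 (hS w' hw').2.2)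
    gcongr)
  refine h1.trans ?_
  have h2 : T / (c * W ^ (1 / 4 : ℝ)) = 1 / c * (T / W ^ (1 / 4 : ℝ)) := by field_simp
  rw [h2]
  have h3 : 0 ≤ T / W ^ (1 / 4 : ℝ) := by positivity
  nlinarith

theorem exc_neg (A : ℕ) (w : ℤ) (hw : w ≤ 0) (h : Exc A w) : |w| < A ∧ w ≠ 0 := by
  obtain ⟨y, hy, hlt⟩ := h
  have hw0 : w ≠ 0 := by
    rintro rfl
    rw [abs_zero, mul_zero] at hlt
    exact absurd hlt (not_lt.2 (sq_nonneg _))
  refine ⟨?_, hw0⟩
  obtain ⟨v, hv⟩ : ∃ v : ℤ, v = |w| := ⟨_, rfl⟩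
  have hwv : w = -v := by rw [hv, abs_of_nonpos hw]; ring
  have hv1 : 1 ≤ v := by rw [hv]; exact Int.one_le_abs hw0
  rw [← hv] at hlt ⊢
  rw [hwv] at hlt
  have h1 : y ^ 2 - (-v) ^ 3 = y ^ 2 + v ^ 3 := by ring
  rw [h1] at hlt
  have h2 : (v ^ 3) ^ 2 ≤ (y ^ 2 + v ^ 3) ^ 2 := by
    have : 0 ≤ y ^ 2 := sq_nonneg y
    gcongr
    linarith
  have h3 : v * v ≤ (v ^ 3) ^ 2 := by
    have : v ^ 2 ≤ v ^ 6 := pow_le_pow_right₀ hv1 (by norm_num)
    calc v * v = v ^ 2 := by ring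
      _ ≤ v ^ 6 := this
      _ = _ := by ring
  have h4 : v * v < A * v := by linarith
  exact lt_of_mul_lt_mul_right h4 (by linarith)

/-- **Global count.** -/
theorem global_count (A : ℕ) : ∃ K : ℝ, 1 ≤ K ∧ ∀ Y : ℝ, 1 ≤ Y → ∀ U : Finset ℤ,
    (∀ w ∈ U, |(w : ℝ)| ≤ Y ∧ Exc A w) → (U.card : ℝ) ≤ K * Y ^ (3 / 4 : ℝ) := by
  obtain ⟨C, hC, hloc⟩ := local_count A
  have hhalf : (1 / 2 : ℝ) ^ (3 / 4 : ℝ) ≤ 3 / 5 := by
    have h1 : ((1 / 2 : ℝ) ^ (3 / 4 : ℝ)) ^ 4 ≤ (3 / 5) ^ 4 := by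
      rw [← Real.rpow_natCast, ← Real.rpow_mul (by norm_num)]
      norm_num
    exact le_of_pow_le_pow_left₀ (by norm_num) (by norm_num) h1
  -- the positive ones
  have hpos : ∀ X : ℕ, 1 ≤ X → ∀ U : Finset ℤ, (∀ w ∈ U, 0 < w ∧ w ≤ X ∧ Exc A w) →
      (U.card : ℝ) ≤ 5 / 2 * (C + 1) * (X : ℝ) ^ (3 / 4 : ℝ) := by
    intro X
    induction X using Nat.strong_induction_on with
    | _ X ih =>
      intro hX U hU
      have hXr : (1 : ℝ) ≤ X := by exact_mod_cast hX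
      have hX1 : 1 ≤ (X : ℝ) ^ (3 / 4 : ℝ) := Real.one_le_rpow hXr (by norm_num)
      rcases Nat.lt_or_ge X 2 with h2 | h2
      · have hX' : X = 1 := by omega
        have h3 : U ⊆ {1} := by
          intro w hw
          obtain ⟨h4, h5, -⟩ := hU w hw
          rw [hX'] at h5
          rw [mem_singleton]
          push_cast at h5
          omega
        have h4 := Finset.card_le_card h3
        rw [card_singleton] at h4
        have h5 : (U.card : ℝ) ≤ 1 := by exact_mod_cast h4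
        nlinarith
      · have h3 := ih (X / 2) (by omega) (by omega) (U.filter (fun w => w ≤ ((X / 2 : ℕ) : ℤ))) (by
          intro w hw
          rw [mem_filter] at hw
          exact ⟨(hU w hw.1).1, hw.2, (hU w hw.1).2.2⟩)
        have h4 := hloc ((X : ℝ) / 2) ((X : ℝ) / 2) (by
          have : (2 : ℝ) ≤ X := by exact_mod_cast h2
          linarith) (by positivity) (U.filter (fun w => ¬ w ≤ ((X / 2 : ℕ) : ℤ))) (by
          intro w hw
          rw [mem_filter, not_le] at hw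
          obtain ⟨h5, h6, h7⟩ := hU w hw.1
          refine ⟨?_, ?_, h7⟩
          · have h8 : (X : ℤ) ≤ 2 * w := by omega
            have h9 : (X : ℝ) ≤ 2 * w := by exact_mod_cast h8
            linarith
          · have h9 : (w : ℝ) ≤ X := by exact_mod_cast h6
            linarith)
        have h5 : (U.card : ℝ) = ((U.filter (fun w => w ≤ ((X / 2 : ℕ) : ℤ))).card : ℝ) +
            ((U.filter (fun w => ¬ w ≤ ((X / 2 : ℕ) : ℤ))).card : ℝ) := by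
          rw [← Finset.card_filter_add_card_filter_not (s := U) (fun w => w ≤ ((X / 2 : ℕ) : ℤ))]
          push_cast
          rfl
        have h6 : ((X / 2 : ℕ) : ℝ) ≤ (X : ℝ) / 2 := Nat.cast_div_le
        have h7 : ((X / 2 : ℕ) : ℝ) ^ (3 / 4 : ℝ) ≤ 3 / 5 * (X : ℝ) ^ (3 / 4 : ℝ) := by
          calc ((X / 2 : ℕ) : ℝ) ^ (3 / 4 : ℝ) ≤ ((1 / 2) * (X : ℝ)) ^ (3 / 4 : ℝ) :=
                Real.rpow_le_rpow (by positivity) (by linarith) (by norm_num)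
            _ = (1 / 2 : ℝ) ^ (3 / 4 : ℝ) * (X : ℝ) ^ (3 / 4 : ℝ) := Real.mul_rpow (by norm_num) (by positivity)
            _ ≤ _ := by gcongr
        have h8 : (X : ℝ) / 2 / ((X : ℝ) / 2) ^ (1 / 4 : ℝ) ≤ (X : ℝ) ^ (3 / 4 : ℝ) := by
          have h9 : 0 < (X : ℝ) / 2 := by positivity
          have h10 : (X : ℝ) / 2 / ((X : ℝ) / 2) ^ (1 / 4 : ℝ) = ((X : ℝ) / 2) ^ (3 / 4 : ℝ) := by
            rw [div_eq_iff (by positivity), ← Real.rpow_add h9]
            norm_num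
          rw [h10]
          exact Real.rpow_le_rpow h9.le (by linarith) (by norm_num)
        have h11 : C * ((X : ℝ) / 2 / ((X : ℝ) / 2) ^ (1 / 4 : ℝ)) + 1 ≤ (C + 1) * (X : ℝ) ^ (3 / 4 : ℝ) := by
          nlinarith
        have h12 : 5 / 2 * (C + 1) * ((X / 2 : ℕ) : ℝ) ^ (3 / 4 : ℝ) ≤ 3 / 2 * ((C + 1) * (X : ℝ) ^ (3 / 4 : ℝ)) := by
          calc 5 / 2 * (C + 1) * ((X / 2 : ℕ) : ℝ) ^ (3 / 4 : ℝ) ≤ 5 / 2 * (C + 1) * (3 / 5 * (X : ℝ) ^ (3 / 4 : ℝ)) := by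
                gcongr
            _ = _ := by ring
        rw [h5]
        linarith
  refine ⟨5 / 2 * (C + 1) + A, by nlinarith [(Nat.cast_nonneg A : (0 : ℝ) ≤ A)], ?_⟩
  intro Y hY U hU
  have hY1 : 1 ≤ Y ^ (3 / 4 : ℝ) := Real.one_le_rpow hY (by norm_num)
  have h1 : (U.card : ℝ) = ((U.filter (fun w => 0 < w)).card : ℝ) + ((U.filter (fun w => ¬ 0 < w)).card : ℝ) := by
    rw [← Finset.card_filter_add_card_filter_not (s := U) (fun w => 0 < w)]
    push_cast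
    rfl
  have h2 : ((U.filter (fun w => 0 < w)).card : ℝ) ≤ 5 / 2 * (C + 1) * Y ^ (3 / 4 : ℝ) := by
    have h3 := hpos ⌊Y⌋₊ (Nat.le_floor (by exact_mod_cast hY)) (U.filter (fun w => 0 < w)) (by
      intro w hw
      rw [mem_filter] at hw
      refine ⟨hw.2, ?_, (hU w hw.1).2⟩
      have h4 := (hU w hw.1).1
      rw [abs_of_pos (by exact_mod_cast hw.2)] at h4
      have h5 : w.toNat ≤ ⌊Y⌋₊ := by
        apply Nat.le_floor
        have h6 : ((w.toNat : ℤ) : ℝ) = w := by rw [Int.toNat_of_nonneg hw.2.le]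
        rw [← h6] at h4
        exact_mod_cast h4
      omega)
    refine h3.trans ?_
    gcongr
    exact Nat.floor_le (by linarith)
  have h3 : ((U.filter (fun w => ¬ 0 < w)).card : ℝ) ≤ A := by
    have h4 : U.filter (fun w => ¬ 0 < w) ⊆ Ico (-(A : ℤ)) 0 := by
      intro w hw
      rw [mem_filter, not_lt] at hw
      obtain ⟨h5, h6⟩ := exc_neg A w hw.2 (hU w hw.1).2
      rw [abs_lt] at h5
      rw [mem_Ico]
      omega
    have h5 := Finset.card_le_card h4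
    rw [Int.card_Ico] at h5
    have h6 : ((0 : ℤ) - -(A : ℤ)).toNat = A := by omega
    rw [h6] at h5
    exact_mod_cast h5
  rw [h1, add_mul]
  have h4 : (A : ℝ) * 1 ≤ A * Y ^ (3 / 4 : ℝ) := by gcongr
  linarith

end T9h23.Ab
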