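import Pool.Agent.T9h23.Ab.A1
import Pool.Agent.T9h23.Pe.O3

/-! # The number of the linear perturbations with an exceptional value at `n` -/

set_option autoImplicit false

namespace T9h23.Ab

open Finset T9h23.Ru T9h23.Op T9h23.Pe
open scoped Classical

/-- the pairs with an exceptional value `w + p n + q` -/
noncomputable def exa (A H : ℕ) (w n : ℤ) : Finset (ℤ × ℤ) := (Pe.sq H).filter (fun c => Exc A (w + (c.1 * n + c.2)))

/-- covering by the exceptional values -/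
theorem coverA (A H : ℕ) (n w : ℤ) (hn : n ≠ 0) (V : Finset ℤ) (M : ℝ) (hM : (V.card : ℝ) ≤ M)
    (hV : ∀ c ∈ Pe.sq H, Exc A (w + (c.1 * n + c.2)) → c.1 * n + c.2 ∈ V) :
    ((exa A H w n).card : ℝ) ≤ M * ((2 * H + 1) / |(n : ℝ)| + 1) := by
  have h1 := Finset.card_eq_sum_card_fiberwise (f := fun c : ℤ × ℤ => c.1 * n + c.2) (s := exa A H w n) (t := V)
    (by
      intro c hc
      rw [Finset.mem_coe, exa, mem_filter] at hc
      exact hV c hc.1 hc.2)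
  have h2 : ∀ v ∈ V, ((((exa A H w n).filter (fun c => c.1 * n + c.2 = v)).card : ℕ) : ℝ) ≤
      (2 * H + 1) / |(n : ℝ)| + 1 := by
    intro v _
    refine le_trans ?_ (fib H n v hn)
    have : ((exa A H w n).filter (fun c => c.1 * n + c.2 = v)).card ≤
        ((Pe.sq H).filter (fun c => c.1 * n + c.2 = v)).card := by
      apply Finset.card_le_card
      exact Finset.filter_subset_filter _ (Finset.filter_subset _ _)
    exact_mod_cast this
  have h3 : ((exa A H w n).card : ℝ) =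
      ∑ v ∈ V, ((((exa A H w n).filter (fun c => c.1 * n + c.2 = v)).card : ℕ) : ℝ) := by
    rw [h1]; push_cast; rfl
  rw [h3]
  refine (Finset.sum_le_card_nsmul _ _ _ h2).trans ?_
  rw [nsmul_eq_mul]
  have h4 : (0 : ℝ) ≤ (2 * H + 1) / |(n : ℝ)| + 1 := by positivity
  gcongr

/-- small arguments -/
theorem exa_small (A : ℕ) (K : ℝ)
    (hcount : ∀ Y : ℝ, 1 ≤ Y → ∀ U : Finset ℤ, (∀ y ∈ U, |(y : ℝ)| ≤ Y ∧ Exc A y) → (U.card : ℝ) ≤ K * Y ^ (3 / 4 : ℝ))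
    (H : ℕ) (n w : ℤ) (hn : n ≠ 0) (Y : ℝ) (hY : 1 ≤ Y) (hw : |(w : ℝ)| + 2 * H * |(n : ℝ)| ≤ Y) :
    ((exa A H w n).card : ℝ) ≤ K * Y ^ (3 / 4 : ℝ) * ((2 * H + 1) / |(n : ℝ)| + 1) := by
  set T : ℕ := 2 * H * n.natAbs with hT
  set V := (Icc (-(T : ℤ)) T).filter (fun v => Exc A (w + v)) with hV
  have h1 : (V.card : ℝ) ≤ K * Y ^ (3 / 4 : ℝ) := by
    have h2 := hcount Y hY (V.image (fun v => w + v)) (by
      intro y hy
      rw [mem_image] at hy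
      obtain ⟨v, hv, rfl⟩ := hy
      rw [hV, mem_filter, mem_Icc, ← abs_le] at hv
      refine ⟨?_, hv.2⟩
      refine le_trans ?_ hw
      push_cast
      have h3 : |(v : ℝ)| ≤ (T : ℝ) := by exact_mod_cast hv.1
      have h4 : (T : ℝ) = 2 * H * |(n : ℝ)| := by
        rw [hT]; push_cast; rw [Nat.cast_natAbs, Int.cast_abs]
      rw [h4] at h3
      exact (abs_add_le _ _).trans (by linarith))
    rwa [Finset.card_image_of_injective _ (add_right_injective w)] at h2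
  refine coverA A H n w hn V _ h1 ?_
  intro c hc hb
  rw [hV, mem_filter, mem_Icc, ← abs_le]
  exact ⟨size hc n hn, hb⟩

/-- argument zero -/
theorem exa_zero (A : ℕ) (K : ℝ)
    (hcount : ∀ Y : ℝ, 1 ≤ Y → ∀ U : Finset ℤ, (∀ y ∈ U, |(y : ℝ)| ≤ Y ∧ Exc A y) → (U.card : ℝ) ≤ K * Y ^ (3 / 4 : ℝ))
    (H : ℕ) (w : ℤ) (Y : ℝ) (hY : 1 ≤ Y) (hw : |(w : ℝ)| + H ≤ Y) :
    ((exa A H w 0).card : ℝ) ≤ (2 * H + 1) * (K * Y ^ (3 / 4 : ℝ)) := by
  set V := (Icc (-(H : ℤ)) H).filter (fun v => Exc A (w + v)) with hV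
  have h1 : (V.card : ℝ) ≤ K * Y ^ (3 / 4 : ℝ) := by
    have h2 := hcount Y hY (V.image (fun v => w + v)) (by
      intro y hy
      rw [mem_image] at hy
      obtain ⟨v, hv, rfl⟩ := hy
      rw [hV, mem_filter, mem_Icc, ← abs_le] at hv
      refine ⟨?_, hv.2⟩
      refine le_trans ?_ hw
      push_cast
      have h3 : |(v : ℝ)| ≤ H := by exact_mod_cast hv.1
      exact (abs_add_le _ _).trans (by linarith))
    rwa [Finset.card_image_of_injective _ (add_right_injective w)] at h2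
  have h2 : exa A H w 0 ⊆ Icc (-(H : ℤ)) H ×ˢ V := by
    intro c hc
    rw [exa, mem_filter, mem_sq, mul_zero, zero_add] at hc
    rw [mem_product, mem_Icc, ← abs_le, hV, mem_filter, mem_Icc, ← abs_le]
    exact ⟨hc.1.1, hc.1.2, hc.2⟩
  have h3 := Finset.card_le_card h2
  rw [Finset.card_product, Int.card_Icc] at h3
  have h4 : ((H : ℤ) + 1 - -(H : ℤ)).toNat = 2 * H + 1 := by omega
  rw [h4] at h3
  calc ((exa A H w 0).card : ℝ) ≤ (((2 * H + 1) * V.card : ℕ) : ℝ) := by exact_mod_cast h3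
    _ = (2 * H + 1) * (V.card : ℝ) := by push_cast; ring
    _ ≤ _ := by gcongr

/-- larger arguments -/
theorem exa_large (A : ℕ) (C : ℝ) (hC : 1 ≤ C)
    (hloc : ∀ W T : ℝ, 1 ≤ W → 0 ≤ T → ∀ S : Finset ℤ,
      (∀ w ∈ S, W ≤ w ∧ (w : ℝ) ≤ W + T ∧ Exc A w) → (S.card : ℝ) ≤ C * (T / W ^ (1 / 4 : ℝ)) + 1)
    (H : ℕ) (n w : ℤ) (hn : n ≠ 0) (hw1 : 2 ≤ (w : ℝ)) (hw : 4 * H * |(n : ℝ)| ≤ w) :
    ((exa A H w n).card : ℝ) ≤ (C * (4 * H * |(n : ℝ)| / ((w : ℝ) / 2) ^ (1 / 4 : ℝ)) + 1) *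
      ((2 * H + 1) / |(n : ℝ)| + 1) := by
  set T : ℕ := 2 * H * n.natAbs with hT
  have h4 : (T : ℝ) = 2 * H * |(n : ℝ)| := by
    rw [hT]; push_cast; rw [Nat.cast_natAbs, Int.cast_abs]
  set V := (Icc (-(T : ℤ)) T).filter (fun v => Exc A (w + v)) with hV
  have h1 : (V.card : ℝ) ≤ C * (4 * H * |(n : ℝ)| / ((w : ℝ) / 2) ^ (1 / 4 : ℝ)) + 1 := by
    have h2 := hloc ((w : ℝ) - T) (2 * T) (by rw [h4]; linarith) (by positivity) (V.image (fun v => w + v)) (by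
      intro y hy
      rw [mem_image] at hy
      obtain ⟨v, hv, rfl⟩ := hy
      rw [hV, mem_filter, mem_Icc, ← abs_le] at hv
      have h3 : |(v : ℝ)| ≤ (T : ℝ) := by exact_mod_cast hv.1
      obtain ⟨h5, h6⟩ := abs_le.1 h3
      push_cast
      refine ⟨by linarith, by linarith, hv.2⟩)
    rw [Finset.card_image_of_injective _ (add_right_injective w)] at h2
    refine h2.trans ?_
    have h3 : ((w : ℝ) / 2) ^ (1 / 4 : ℝ) ≤ ((w : ℝ) - T) ^ (1 / 4 : ℝ) :=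
      Real.rpow_le_rpow (by linarith) (by rw [h4]; linarith) (by norm_num)
    have h5 : 0 < ((w : ℝ) / 2) ^ (1 / 4 : ℝ) := Real.rpow_pos_of_pos (by linarith) _
    have h6 : 2 * (T : ℝ) / ((w : ℝ) - T) ^ (1 / 4 : ℝ) ≤ 4 * H * |(n : ℝ)| / ((w : ℝ) / 2) ^ (1 / 4 : ℝ) := by
      have h7 : 2 * (T : ℝ) = 4 * H * |(n : ℝ)| := by rw [h4]; ring
      rw [h7]
      gcongr
    gcongr
  refine coverA A H n w hn V _ h1 ?_
  intro c hc hb
  rw [hV, mem_filter, mem_Icc, ← abs_le]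
  exact ⟨size hc n hn, hb⟩

end T9h23.Ab
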