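import Pool.Agent.T9h23.Ab.A2
import Pool.Agent.T9h23.Pe.O4

/-! # The number of the linear perturbations with an exceptional value at a moderate argument -/

set_option autoImplicit false

namespace T9h23.Ab

open Finset T9h23.Ru T9h23.Op T9h23.Pe
open scoped Classical

theorem mv_pos {d : ℕ} (hd : 1 ≤ d) (hev : Even d) (g : Fin d → ℤ) (n : ℤ) (hn : 2 * gs g ≤ |n|) :
    |n| ^ d ≤ 2 * mv g n := by
  have h4 := gs_pos g
  have hn0 : n ≠ 0 := by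
    rintro rfl
    rw [abs_zero] at hn
    linarith
  have h1 := mv_sub g n hn0
  have h2 : n ^ d = |n| ^ d := (hev.pow_abs n).symm
  rw [h2] at h1
  have h3 := (abs_le.1 h1).1
  have h6 : |n| ^ d = |n| ^ (d - 1) * |n| := by
    rw [← pow_succ]; congr 1; omega
  have h7 : 0 ≤ |n| ^ (d - 1) := by positivity
  nlinarith

/-- small arguments -/
theorem midS (r : ℕ) (hr : 4 ≤ r) (g : Fin (2 * r) → ℤ) (A : ℕ) (B : ℕ) (hB : 1 ≤ B) :
    ∃ C : ℝ, 1 ≤ C ∧ ∀ H k : ℕ, 1 ≤ H → 1 ≤ k → k ^ (2 * r - 1) ≤ H → ∀ n : ℤ, n ≠ 0 → |(n : ℝ)| ≤ B * k →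
      ((exa A H (mv g n) n).card : ℝ) ≤ C * ((H : ℝ) ^ (7 / 4 : ℝ) * |(n : ℝ)| ^ (-(1 / 4) : ℝ)) := by
  obtain ⟨K, hK, hcount⟩ := global_count A
  set G : ℝ := (gs g : ℝ) with hG
  have hG1 : 1 ≤ G := by rw [hG]; exact_mod_cast gs_pos g
  have hBr : (1 : ℝ) ≤ B := by exact_mod_cast hB
  set L : ℝ := (B : ℝ) ^ (2 * r - 1) with hL
  have hL1 : 1 ≤ L := one_le_pow₀ hBr
  set C₂ : ℝ := G * L + 2 with hC₂
  have hC₂1 : 1 ≤ C₂ := by rw [hC₂]; nlinarith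
  have hC21 : 1 ≤ C₂ ^ (3 / 4 : ℝ) := Real.one_le_rpow hC₂1 (by norm_num)
  have hKC : 1 ≤ K * C₂ ^ (3 / 4 : ℝ) := by nlinarith
  refine ⟨K * C₂ ^ (3 / 4 : ℝ) * (4 * L), by nlinarith, ?_⟩
  intro H k hH hk hkH n hn hnB
  have hHr : (1 : ℝ) ≤ H := by exact_mod_cast hH
  have hH0 : (0 : ℝ) < H := by linarith
  have hkHr : (k : ℝ) ^ (2 * r - 1) ≤ H := by exact_mod_cast hkH
  have hn1 : (1 : ℝ) ≤ |(n : ℝ)| := by
    have : 1 ≤ |n| := Int.one_le_abs hn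
    exact_mod_cast this
  obtain ⟨m, hm⟩ : ∃ m : ℝ, m = |(n : ℝ)| := ⟨_, rfl⟩
  rw [← hm] at hn1 hnB ⊢
  have hm0 : 0 < m := by linarith
  have hc : m ^ (2 * r - 1) ≤ L * H := by
    calc m ^ (2 * r - 1) ≤ (B * k) ^ (2 * r - 1) := by gcongr
      _ = L * (k : ℝ) ^ (2 * r - 1) := by rw [mul_pow]
      _ ≤ _ := by gcongr
  have hw : |(mv g n : ℝ)| ≤ G * m ^ (2 * r) := by
    rw [hm, hG]; exact_mod_cast mv_upper g n hn
  have hm2 : m ^ (2 * r) = m ^ (2 * r - 1) * m := by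
    rw [← pow_succ]; congr 1; omega
  have hY : |(mv g n : ℝ)| + 2 * H * |(n : ℝ)| ≤ C₂ * H * m := by
    rw [← hm]
    have h1 : G * m ^ (2 * r) ≤ G * (L * H) * m := by
      rw [hm2, ← mul_assoc]; gcongr
    rw [hC₂]
    nlinarith
  have hY1 : 1 ≤ C₂ * H * m := by
    have : 1 ≤ C₂ * H := by nlinarith
    nlinarith
  have h1 := exa_small A K hcount H n (mv g n) hn _ hY1 hY
  rw [← hm] at h1
  have hmL : m ≤ L * H := le_trans (le_self_pow₀ hn1 (by omega)) hc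
  have h2 : (2 * (H : ℝ) + 1) / m + 1 ≤ 4 * L * H / m := by
    rw [div_add_one hm0.ne']
    gcongr
    nlinarith
  refine h1.trans ?_
  rw [Real.mul_rpow (by positivity) hm0.le, Real.mul_rpow (by linarith) hH0.le]
  have h3 : (H : ℝ) ^ (7 / 4 : ℝ) = (H : ℝ) ^ (3 / 4 : ℝ) * H := by
    nth_rewrite 3 [← Real.rpow_one (H : ℝ)]
    rw [← Real.rpow_add hH0]
    norm_num
  have h4 : m ^ (-(1 / 4) : ℝ) = m ^ (3 / 4 : ℝ) / m := by
    rw [eq_div_iff hm0.ne']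
    nth_rewrite 2 [← Real.rpow_one m]
    rw [← Real.rpow_add hm0]
    norm_num
  calc K * (C₂ ^ (3 / 4 : ℝ) * (H : ℝ) ^ (3 / 4 : ℝ) * m ^ (3 / 4 : ℝ)) * ((2 * H + 1) / m + 1)
      ≤ K * (C₂ ^ (3 / 4 : ℝ) * (H : ℝ) ^ (3 / 4 : ℝ) * m ^ (3 / 4 : ℝ)) * (4 * L * H / m) := by gcongr
    _ = _ := by rw [h3, h4]; ring

/-- larger arguments -/
theorem midL (r : ℕ) (hr : 4 ≤ r) (g : Fin (2 * r) → ℤ) (A : ℕ) : ∃ (B : ℕ) (C : ℝ), 1 ≤ B ∧ 1 ≤ C ∧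
    ∀ H k : ℕ, 1 ≤ H → 1 ≤ k → H ≤ (2 * k) ^ (2 * r - 1) → ∀ n : ℤ, B * k ≤ |(n : ℝ)| →
      ((exa A H (mv g n) n).card : ℝ) ≤ C * ((H : ℝ) ^ 2 / |(n : ℝ)| ^ 2 + 1) := by
  obtain ⟨C, hC, hloc⟩ := local_count A
  obtain ⟨G, hG⟩ : ∃ G : ℕ, (G : ℤ) = gs g := ⟨(gs g).toNat, Int.toNat_of_nonneg (by linarith [gs_pos g])⟩
  have hG1 : 1 ≤ G := by
    have := gs_pos g
    rw [← hG] at this
    exact_mod_cast this
  have hG1r : (1 : ℝ) ≤ G := by exact_mod_cast hG1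
  refine ⟨16 * G, 100 * C, by omega, by linarith, ?_⟩
  intro H k hH hk hkH n hnB
  have hHr : (1 : ℝ) ≤ H := by exact_mod_cast hH
  have hH0 : (0 : ℝ) < H := by linarith
  have hkr : (1 : ℝ) ≤ k := by exact_mod_cast hk
  push_cast at hnB
  obtain ⟨m, hm⟩ : ∃ m : ℝ, m = |(n : ℝ)| := ⟨_, rfl⟩
  rw [← hm] at hnB ⊢
  have hm16 : 16 ≤ m := by nlinarith
  have hm0 : 0 < m := by linarith
  have hn0 : n ≠ 0 := by
    rintro rfl
    rw [Int.cast_zero, abs_zero] at hm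
    linarith
  have hnG : 2 * gs g ≤ |n| := by
    rw [← hG]
    have h1 : 2 * (G : ℝ) ≤ |(n : ℝ)| := by
      rw [← hm]
      nlinarith
    exact_mod_cast h1
  have hlow : m ^ (2 * r) ≤ 2 * (mv g n : ℝ) := by
    rw [hm]
    exact_mod_cast mv_pos (by omega) ⟨r, by ring⟩ g n hnG
  have hm2 : m ^ (2 * r) = m ^ (2 * r - 1) * m := by
    rw [← pow_succ]; congr 1; omega
  have hHm : 8 * (H : ℝ) ≤ m ^ (2 * r - 1) := by
    have h1 : (H : ℝ) ≤ (2 * k) ^ (2 * r - 1) := by exact_mod_cast hkH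
    calc 8 * (H : ℝ) ≤ 8 ^ (2 * r - 1) * (2 * k) ^ (2 * r - 1) := by
          gcongr
          exact le_self_pow₀ (by norm_num) (by omega)
      _ = (8 * (2 * k)) ^ (2 * r - 1) := by rw [← mul_pow]
      _ ≤ m ^ (2 * r - 1) := by
          gcongr
          nlinarith
  have hw4 : 4 * H * |(n : ℝ)| ≤ (mv g n : ℝ) := by
    rw [← hm]
    rw [hm2] at hlow
    nlinarith
  have hw2 : (2 : ℝ) ≤ (mv g n : ℝ) := by
    rw [← hm] at hw4
    nlinarith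
  have h1 := exa_large A C hC hloc H n (mv g n) hn0 hw2 hw4
  rw [← hm] at h1
  have hq : m ^ 2 / 2 ≤ ((mv g n : ℝ) / 2) ^ (1 / 4 : ℝ) := by
    have h2 : (m ^ 2 / 2) ^ 4 ≤ (mv g n : ℝ) / 2 := by
      have h3 : m ^ 8 ≤ m ^ (2 * r) := pow_le_pow_right₀ (by linarith) (by omega)
      have h4 : (m ^ 2 / 2) ^ 4 = m ^ 8 / 16 := by ring
      rw [h4]
      have : 0 ≤ m ^ 8 := by positivity
      linarith
    calc m ^ 2 / 2 = ((m ^ 2 / 2) ^ 4) ^ (1 / 4 : ℝ) := by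
          rw [← Real.rpow_natCast (m ^ 2 / 2) 4, ← Real.rpow_mul (by positivity)]
          norm_num
      _ ≤ _ := Real.rpow_le_rpow (by positivity) h2 (by norm_num)
  have h2 : 4 * H * m / ((mv g n : ℝ) / 2) ^ (1 / 4 : ℝ) ≤ 8 * (H / m) := by
    calc 4 * H * m / ((mv g n : ℝ) / 2) ^ (1 / 4 : ℝ) ≤ 4 * H * m / (m ^ 2 / 2) := by gcongr
      _ = 8 * (H / m) := by field_simp; ring
  have h3 : (2 * (H : ℝ) + 1) / m + 1 ≤ 3 * (H / m) + 1 := by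
    have : (2 * (H : ℝ) + 1) / m ≤ 3 * H / m := by
      gcongr
      linarith
    rw [mul_div_assoc] at this
    linarith
  obtain ⟨t, ht⟩ : ∃ t : ℝ, t = H / m := ⟨_, rfl⟩
  have ht0 : 0 ≤ t := by rw [ht]; positivity
  rw [← ht] at h2 h3
  have h4 : (H : ℝ) ^ 2 / m ^ 2 = t ^ 2 := by rw [ht, div_pow]
  rw [h4]
  refine h1.trans ?_
  calc (C * (4 * H * m / ((mv g n : ℝ) / 2) ^ (1 / 4 : ℝ)) + 1) * ((2 * H + 1) / m + 1)
      ≤ (C * (8 * t) + 1) * (3 * t + 1) := by gcongr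
    _ ≤ (C * (8 * t + 1)) * (3 * t + 1) := by
        gcongr
        nlinarith
    _ ≤ _ := by
        have h5 : (8 * t + 1) * (3 * t + 1) ≤ 100 * (t ^ 2 + 1) := by nlinarith [sq_nonneg (t - 1)]
        calc (C * (8 * t + 1)) * (3 * t + 1) = C * ((8 * t + 1) * (3 * t + 1)) := by ring
          _ ≤ C * (100 * (t ^ 2 + 1)) := by gcongr
          _ = _ := by ring

theorem sum_quarter (M : ℕ) : ∑ m ∈ Icc 1 M, (m : ℝ) ^ (-(1 / 4) : ℝ) ≤ 2 * (M : ℝ) ^ (3 / 4 : ℝ) := by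
  induction M with
  | zero => simp
  | succ M ih =>
    rw [Finset.sum_Icc_succ_top (by omega)]
    have hM0 : (0 : ℝ) ≤ M := Nat.cast_nonneg M
    have hM1 : (0 : ℝ) < ((M + 1 : ℕ) : ℝ) := by positivity
    obtain ⟨b, hb⟩ : ∃ b : ℝ, b = ((M + 1 : ℕ) : ℝ) := ⟨_, rfl⟩
    rw [← hb] at hM1 ⊢
    have hbM : b = M + 1 := by rw [hb]; push_cast; ring
    have hq : 0 < b ^ (1 / 4 : ℝ) := Real.rpow_pos_of_pos hM1 _
    have h1 := Real.geom_mean_le_arith_mean2_weighted (by norm_num : (0 : ℝ) ≤ 3 / 4) (by norm_num : (0 : ℝ) ≤ 1 / 4)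
      hM0 hM1.le (by norm_num)
    have h2 : b ^ (-(1 / 4) : ℝ) * b ^ (1 / 4 : ℝ) = 1 := by
      rw [← Real.rpow_add hM1]
      norm_num
    have h3 : b ^ (3 / 4 : ℝ) * b ^ (1 / 4 : ℝ) = b := by
      rw [← Real.rpow_add hM1]
      norm_num
    have h4 : (2 * (M : ℝ) ^ (3 / 4 : ℝ) + b ^ (-(1 / 4) : ℝ)) * b ^ (1 / 4 : ℝ) ≤
        (2 * b ^ (3 / 4 : ℝ)) * b ^ (1 / 4 : ℝ) := by
      rw [add_mul, h2, mul_assoc, mul_assoc, h3]
      linarith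
    have h5 := le_of_mul_le_mul_right h4 hq
    linarith

/-- the pairs with an exceptional value at an argument up to `N` -/
noncomputable def exas {d : ℕ} (g : Fin d → ℤ) (A H : ℕ) (N : ℝ) : Finset (ℤ × ℤ) :=
  (Pe.sq H).filter (fun c => ∃ n : ℤ, |(n : ℝ)| ≤ N ∧ Exc A (mv g n + (c.1 * n + c.2)))

/-- **All moderate arguments.** -/
theorem totalA (r : ℕ) (hr : 4 ≤ r) (g : Fin (2 * r) → ℤ) (A : ℕ) (C₁ : ℝ) (hC₁ : 1 ≤ C₁) :
    ∃ C : ℝ, 0 < C ∧ ∀ H k : ℕ, 1 ≤ H → 1 ≤ k → k ^ (2 * r - 1) ≤ H → H ≤ (2 * k) ^ (2 * r - 1) →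
      ((exas g A H (C₁ * (k : ℝ) ^ (4 * r - 3))).card : ℝ) ≤ C * ((H : ℝ) ^ 2 / k) := by
  obtain ⟨K, hK, hcount⟩ := global_count A
  obtain ⟨B, CL, hB, hCL, hmidL⟩ := midL r hr g A
  obtain ⟨CS, hCS, hmidS⟩ := midS r hr g A B hB
  have hBr : (1 : ℝ) ≤ B := by exact_mod_cast hB
  set G : ℝ := |(mv g 0 : ℝ)| + 1 with hG
  have hG1 : 1 ≤ G := by rw [hG]; linarith [abs_nonneg (mv g 0 : ℝ)]
  set D0 : ℝ := 3 * (K * G ^ (3 / 4 : ℝ)) with hD0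
  have hD00 : 0 ≤ D0 := by positivity
  refine ⟨D0 + 4 * CS * B + 2 * CL + 2 * CL * C₁, by positivity, ?_⟩
  intro H k hH hk hkH hHk
  have hHr : (1 : ℝ) ≤ H := by exact_mod_cast hH
  have hH0 : (0 : ℝ) < H := by linarith
  have hkr : (1 : ℝ) ≤ k := by exact_mod_cast hk
  have hk0 : (0 : ℝ) < k := by linarith
  have hkHr : (k : ℝ) ^ (2 * r - 1) ≤ H := by exact_mod_cast hkH
  have hk7 : (k : ℝ) ^ 7 ≤ H := le_trans (pow_le_pow_right₀ hkr (by omega)) hkHr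
  -- `H ^ (7/4) k ^ (3/4) ≤ H ^ 2 / k`
  have hk74 : (k : ℝ) ^ (7 / 4 : ℝ) ≤ (H : ℝ) ^ (1 / 4 : ℝ) := by
    calc (k : ℝ) ^ (7 / 4 : ℝ) = ((k : ℝ) ^ 7) ^ (1 / 4 : ℝ) := by
          rw [← Real.rpow_natCast, ← Real.rpow_mul hk0.le]
          norm_num
      _ ≤ _ := Real.rpow_le_rpow (by positivity) hk7 (by norm_num)
  have hmain : (H : ℝ) ^ (7 / 4 : ℝ) * (k : ℝ) ^ (3 / 4 : ℝ) ≤ (H : ℝ) ^ 2 / k := by
    rw [le_div_iff₀ hk0]
    calc (H : ℝ) ^ (7 / 4 : ℝ) * (k : ℝ) ^ (3 / 4 : ℝ) * k = (H : ℝ) ^ (7 / 4 : ℝ) * ((k : ℝ) ^ (3 / 4 : ℝ) * k) := by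
          ring
      _ = (H : ℝ) ^ (7 / 4 : ℝ) * (k : ℝ) ^ (7 / 4 : ℝ) := by
          congr 1
          nth_rewrite 2 [← Real.rpow_one (k : ℝ)]
          rw [← Real.rpow_add hk0]
          norm_num
      _ ≤ (H : ℝ) ^ (7 / 4 : ℝ) * (H : ℝ) ^ (1 / 4 : ℝ) := by gcongr
      _ = (H : ℝ) ^ 2 := by
          rw [← Real.rpow_add hH0]
          norm_num
  have hmain1 : (H : ℝ) ^ (7 / 4 : ℝ) ≤ (H : ℝ) ^ 2 / k := by
    refine le_trans ?_ hmain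
    have : 1 ≤ (k : ℝ) ^ (3 / 4 : ℝ) := Real.one_le_rpow hkr (by norm_num)
    exact le_mul_of_one_le_right (by positivity) this
  set N : ℝ := C₁ * (k : ℝ) ^ (4 * r - 3) with hN
  have hN1 : 1 ≤ N := by
    have : 1 ≤ (k : ℝ) ^ (4 * r - 3) := one_le_pow₀ hkr
    rw [hN]; nlinarith
  have hNH : N ≤ C₁ * ((H : ℝ) ^ 2 / k) := by
    rw [hN]
    apply mul_le_mul_of_nonneg_left _ (by linarith)
    rw [le_div_iff₀ hk0, ← pow_succ]
    have h1 : (k : ℝ) ^ (4 * r - 3 + 1) = ((k : ℝ) ^ (2 * r - 1)) ^ 2 := by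
      rw [← pow_mul]; congr 1; omega
    rw [h1]
    gcongr
  set M : ℕ := ⌊N⌋₊ with hM
  have hMN : (M : ℝ) ≤ N := Nat.floor_le (by linarith)
  have hsub : exas g A H N ⊆ exa A H (mv g 0) 0 ∪ (Icc 1 M).biUnion (fun m : ℕ =>
      exa A H (mv g (m : ℤ)) (m : ℤ) ∪ exa A H (mv g (-(m : ℤ))) (-(m : ℤ))) := by
    intro c hc
    rw [exas, mem_filter] at hc
    obtain ⟨hc1, n, hn, hb⟩ := hc
    rw [mem_union]
    by_cases hn0 : n = 0
    · left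
      subst hn0
      rw [exa, mem_filter]
      exact ⟨hc1, hb⟩
    · right
      rw [mem_biUnion]
      refine ⟨n.natAbs, ?_, ?_⟩
      · rw [mem_Icc]
        refine ⟨Int.natAbs_pos.2 hn0, ?_⟩
        rw [hM]
        apply Nat.le_floor
        rw [Nat.cast_natAbs, Int.cast_abs]
        exact hn
      · rw [mem_union]
        rcases Int.natAbs_eq n with h | h
        · left
          rw [← h, exa, mem_filter]
          exact ⟨hc1, hb⟩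
        · right
          have h2 : -(n.natAbs : ℤ) = n := h.symm
          rw [h2, exa, mem_filter]
          exact ⟨hc1, hb⟩
  have hcard : ((exas g A H N).card : ℝ) ≤ ((exa A H (mv g 0) 0).card : ℝ) + ∑ m ∈ Icc 1 M,
      (((exa A H (mv g (m : ℤ)) (m : ℤ)).card : ℝ) + ((exa A H (mv g (-(m : ℤ))) (-(m : ℤ))).card : ℝ)) := by
    have h1 := (Finset.card_le_card hsub).trans (Finset.card_union_le _ _)
    have h2 : ((Icc 1 M).biUnion (fun m : ℕ =>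
        exa A H (mv g (m : ℤ)) (m : ℤ) ∪ exa A H (mv g (-(m : ℤ))) (-(m : ℤ)))).card ≤
        ∑ m ∈ Icc 1 M, ((exa A H (mv g (m : ℤ)) (m : ℤ)).card + (exa A H (mv g (-(m : ℤ))) (-(m : ℤ))).card) := by
      refine Finset.card_biUnion_le.trans (Finset.sum_le_sum fun m _ => Finset.card_union_le _ _)
    exact_mod_cast h1.trans (Nat.add_le_add_left h2 _)
  have hz : ((exa A H (mv g 0) 0).card : ℝ) ≤ D0 * ((H : ℝ) ^ 2 / k) := by
    have h1 : |(mv g 0 : ℝ)| + H ≤ G * H := by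
      rw [hG]
      have := abs_nonneg (mv g 0 : ℝ)
      nlinarith
    have h2 := exa_zero A K hcount H (mv g 0) (G * H) (by nlinarith) h1
    refine h2.trans ?_
    rw [Real.mul_rpow (by linarith) hH0.le]
    calc (2 * (H : ℝ) + 1) * (K * (G ^ (3 / 4 : ℝ) * (H : ℝ) ^ (3 / 4 : ℝ))) ≤
          (3 * H) * (K * (G ^ (3 / 4 : ℝ) * (H : ℝ) ^ (3 / 4 : ℝ))) := by
          gcongr
          linarith
      _ = D0 * (H * (H : ℝ) ^ (3 / 4 : ℝ)) := by rw [hD0]; ring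
      _ = D0 * (H : ℝ) ^ (7 / 4 : ℝ) := by
          congr 1
          nth_rewrite 1 [← Real.rpow_one (H : ℝ)]
          rw [← Real.rpow_add hH0]
          norm_num
      _ ≤ _ := by gcongr
  -- the split
  set M₀ : ℕ := B * k with hM₀
  have hM₀1 : 1 ≤ M₀ := Nat.mul_pos hB hk
  have hM₀r : (M₀ : ℝ) = B * k := by rw [hM₀]; push_cast; ring
  have hperS : ∀ m ∈ (Icc 1 M).filter (fun m => m ≤ M₀), (((exa A H (mv g (m : ℤ)) (m : ℤ)).card : ℝ) +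
      ((exa A H (mv g (-(m : ℤ))) (-(m : ℤ))).card : ℝ)) ≤
        2 * CS * (H : ℝ) ^ (7 / 4 : ℝ) * (m : ℝ) ^ (-(1 / 4) : ℝ) := by
    intro m hm
    rw [mem_filter, mem_Icc] at hm
    have hm0 : (m : ℤ) ≠ 0 := by omega
    have hmB : (m : ℝ) ≤ B * k := by rw [← hM₀r]; exact_mod_cast hm.2
    have h1 := hmidS H k hH hk hkH (m : ℤ) hm0 (by
      rw [Int.cast_natCast, abs_of_nonneg (Nat.cast_nonneg m)]; exact hmB)
    have h2 := hmidS H k hH hk hkH (-(m : ℤ)) (neg_ne_zero.2 hm0) (by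
      rw [Int.cast_neg, Int.cast_natCast, abs_neg, abs_of_nonneg (Nat.cast_nonneg m)]; exact hmB)
    rw [Int.cast_natCast, abs_of_nonneg (Nat.cast_nonneg m)] at h1
    rw [Int.cast_neg, Int.cast_natCast, abs_neg, abs_of_nonneg (Nat.cast_nonneg m)] at h2
    linarith
  have hperL : ∀ m ∈ (Icc 1 M).filter (fun m => ¬ m ≤ M₀), (((exa A H (mv g (m : ℤ)) (m : ℤ)).card : ℝ) +
      ((exa A H (mv g (-(m : ℤ))) (-(m : ℤ))).card : ℝ)) ≤
        2 * CL * (H : ℝ) ^ 2 * ((m : ℝ) ^ 2)⁻¹ + 2 * CL := by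
    intro m hm
    rw [mem_filter, mem_Icc, not_le] at hm
    have hmB : (B : ℝ) * k ≤ m := by rw [← hM₀r]; exact_mod_cast hm.2.le
    have h1 := hmidL H k hH hk hHk (m : ℤ) (by
      rw [Int.cast_natCast, abs_of_nonneg (Nat.cast_nonneg m)]; exact hmB)
    have h2 := hmidL H k hH hk hHk (-(m : ℤ)) (by
      rw [Int.cast_neg, Int.cast_natCast, abs_neg, abs_of_nonneg (Nat.cast_nonneg m)]; exact hmB)
    rw [Int.cast_natCast, abs_of_nonneg (Nat.cast_nonneg m)] at h1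
    rw [Int.cast_neg, Int.cast_natCast, abs_neg, abs_of_nonneg (Nat.cast_nonneg m)] at h2
    have h3 : 2 * CL * (H : ℝ) ^ 2 * ((m : ℝ) ^ 2)⁻¹ + 2 * CL = CL * ((H : ℝ) ^ 2 / (m : ℝ) ^ 2 + 1) +
        CL * ((H : ℝ) ^ 2 / (m : ℝ) ^ 2 + 1) := by rw [div_eq_mul_inv]; ring
    rw [h3]
    exact add_le_add h1 h2
  have hsumS : ∑ m ∈ (Icc 1 M).filter (fun m => m ≤ M₀), (((exa A H (mv g (m : ℤ)) (m : ℤ)).card : ℝ) +
      ((exa A H (mv g (-(m : ℤ))) (-(m : ℤ))).card : ℝ)) ≤ 4 * CS * B * ((H : ℝ) ^ 2 / k) := by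
    refine (Finset.sum_le_sum hperS).trans ?_
    rw [← Finset.mul_sum]
    have h1 : ∑ m ∈ (Icc 1 M).filter (fun m => m ≤ M₀), (m : ℝ) ^ (-(1 / 4) : ℝ) ≤ 2 * (M₀ : ℝ) ^ (3 / 4 : ℝ) := by
      refine le_trans (Finset.sum_le_sum_of_subset_of_nonneg ?_ ?_) (sum_quarter M₀)
      · intro m hm
        rw [mem_filter, mem_Icc] at hm
        rw [mem_Icc]
        exact ⟨hm.1.1, hm.2⟩
      · intro m _ _
        positivity
    have h2 : (M₀ : ℝ) ^ (3 / 4 : ℝ) ≤ B * (k : ℝ) ^ (3 / 4 : ℝ) := by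
      rw [hM₀r, Real.mul_rpow (by positivity) hk0.le]
      gcongr
      nth_rewrite 2 [← Real.rpow_one (B : ℝ)]
      exact Real.rpow_le_rpow_of_exponent_le hBr (by norm_num)
    calc 2 * CS * (H : ℝ) ^ (7 / 4 : ℝ) * ∑ m ∈ (Icc 1 M).filter (fun m => m ≤ M₀), (m : ℝ) ^ (-(1 / 4) : ℝ)
        ≤ 2 * CS * (H : ℝ) ^ (7 / 4 : ℝ) * (2 * (B * (k : ℝ) ^ (3 / 4 : ℝ))) := by
          gcongr
          exact h1.trans (by gcongr)
      _ = 4 * CS * B * ((H : ℝ) ^ (7 / 4 : ℝ) * (k : ℝ) ^ (3 / 4 : ℝ)) := by ring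
      _ ≤ _ := by gcongr
  have hsumL : ∑ m ∈ (Icc 1 M).filter (fun m => ¬ m ≤ M₀), (((exa A H (mv g (m : ℤ)) (m : ℤ)).card : ℝ) +
      ((exa A H (mv g (-(m : ℤ))) (-(m : ℤ))).card : ℝ)) ≤ 2 * CL * ((H : ℝ) ^ 2 / k) + 2 * CL * M := by
    refine (Finset.sum_le_sum hperL).trans ?_
    rw [Finset.sum_add_distrib, ← Finset.mul_sum, Finset.sum_const, nsmul_eq_mul]
    have h1 : ∑ m ∈ (Icc 1 M).filter (fun m => ¬ m ≤ M₀), ((m : ℝ) ^ 2)⁻¹ ≤ 1 / k := by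
      rcases le_or_gt M₀ M with h | h
      · have h2 : (Icc 1 M).filter (fun m => ¬ m ≤ M₀) = Ioc M₀ M := by
          ext m
          rw [mem_filter, mem_Icc, mem_Ioc]
          omega
        rw [h2]
        refine (sum_Ioc_inv_sq_le_sub (by omega) h).trans ?_
        have h3 : 0 ≤ ((M : ℝ))⁻¹ := by positivity
        have h4 : ((M₀ : ℝ))⁻¹ ≤ 1 / k := by
          rw [hM₀r, one_div]
          gcongr
          nlinarith
        linarith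
      · have h2 : (Icc 1 M).filter (fun m => ¬ m ≤ M₀) = ∅ := by
          rw [Finset.filter_eq_empty_iff]
          intro m hm
          rw [mem_Icc] at hm
          omega
        rw [h2, Finset.sum_empty]
        positivity
    have h2 : (((Icc 1 M).filter (fun m => ¬ m ≤ M₀)).card : ℝ) ≤ M := by
      have h3 := Finset.card_filter_le (Icc 1 M) (fun m => ¬ m ≤ M₀)
      rw [Nat.card_Icc, Nat.add_sub_cancel] at h3
      exact_mod_cast h3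
    have h3 : 2 * CL * (H : ℝ) ^ 2 * ∑ m ∈ (Icc 1 M).filter (fun m => ¬ m ≤ M₀), ((m : ℝ) ^ 2)⁻¹ ≤
        2 * CL * ((H : ℝ) ^ 2 / k) := by
      calc 2 * CL * (H : ℝ) ^ 2 * ∑ m ∈ (Icc 1 M).filter (fun m => ¬ m ≤ M₀), ((m : ℝ) ^ 2)⁻¹ ≤
            2 * CL * (H : ℝ) ^ 2 * (1 / k) := by gcongr
        _ = _ := by ring
    nlinarith
  have hall : ∑ m ∈ Icc 1 M, (((exa A H (mv g (m : ℤ)) (m : ℤ)).card : ℝ) +
      ((exa A H (mv g (-(m : ℤ))) (-(m : ℤ))).card : ℝ)) ≤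
        4 * CS * B * ((H : ℝ) ^ 2 / k) + (2 * CL * ((H : ℝ) ^ 2 / k) + 2 * CL * M) := by
    rw [← Finset.sum_filter_add_sum_filter_not (Icc 1 M) (fun m => m ≤ M₀)]
    exact add_le_add hsumS hsumL
  have hM2 : 2 * CL * (M : ℝ) ≤ 2 * CL * C₁ * ((H : ℝ) ^ 2 / k) := by
    calc 2 * CL * (M : ℝ) ≤ 2 * CL * (C₁ * ((H : ℝ) ^ 2 / k)) := by
          gcongr
          exact hMN.trans hNH
      _ = _ := by ring
  calc ((exas g A H N).card : ℝ) ≤ D0 * ((H : ℝ) ^ 2 / k) +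
        (4 * CS * B * ((H : ℝ) ^ 2 / k) + (2 * CL * ((H : ℝ) ^ 2 / k) + 2 * CL * M)) := hcard.trans (add_le_add hz hall)
    _ ≤ D0 * ((H : ℝ) ^ 2 / k) + (4 * CS * B * ((H : ℝ) ^ 2 / k) + (2 * CL * ((H : ℝ) ^ 2 / k) +
          2 * CL * C₁ * ((H : ℝ) ^ 2 / k))) := by linarith
    _ = _ := by ring

end T9h23.Ab
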