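import Pool.Agent.T9h23.Ru.R4
import Pool.Agent.T9h23.Ab.A1

/-! # Large arguments: the cubes of the values of a monic polynomial of degree `2 r` are far from the squares -/

set_option autoImplicit false

namespace T9h23.Ab

open Finset Polynomial T9h23.Ru

/-- the coefficients of negative degree of the expansion of `f ^ (3 / 2)`, `deg f = 2 r` -/
noncomputable def lamb (r : ℕ) (a : Fin (2 * r) → ℤ) (i : ℕ) : ℚ := cf (3 / 2) (4 * r - 1) (pol a) (3 * r + i)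

/-- the main part of the expansion, times `n ^ (r - 2)` -/
noncomputable def Qv (r : ℕ) (a : Fin (2 * r) → ℤ) (n : ℤ) : ℝ :=
  ∑ i ∈ Icc 1 (r - 2), (lamb r a i : ℝ) * (n : ℝ) ^ (r - 2 - i)

/-- **Distance from the integers.** -/
theorem nearM (r : ℕ) (hr : 3 ≤ r) : ∃ C₀ : ℝ, 1 ≤ C₀ ∧ ∀ C' : ℝ, C₀ ≤ C' → ∀ h : ℕ, 1 ≤ h → ∀ a : Fin (2 * r) → ℤ,
    InBox h a → ∀ n : ℤ, C' * h ≤ |(n : ℝ)| → C' * |Qv r a n| ≤ |(n : ℝ)| ^ (r - 2) →
    C' * (h : ℝ) ^ (4 * r - 1) ≤ |Qv r a n| * |(n : ℝ)| →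
    ∃ s : ℝ, s ^ 2 = (mv a n : ℝ) ^ 3 ∧ |(n : ℝ)| ^ (3 * r) / 4 ≤ |s| ∧
      |(mv a n : ℝ)| ≤ 3 / 2 * |(n : ℝ)| ^ (2 * r) ∧
      ∀ y : ℤ, |Qv r a n| / |(n : ℝ)| ^ (r - 2) / 2 ≤ |s - y| := by
  obtain ⟨C, hC, happ⟩ := approx (3 / 2) (2 * r) (4 * r - 1) (by omega)
  obtain ⟨D, hD, hden⟩ := cf_den (3 / 2) (4 * r - 1)
  have hDr : (1 : ℝ) ≤ D := by exact_mod_cast hD
  have hr1 : (1 : ℝ) ≤ r := by exact_mod_cast (by omega : 1 ≤ r)
  refine ⟨4 * r + 3 * D + 2 * C + 1, by nlinarith, ?_⟩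
  intro C₀ hC₀ h hh a ha n hn1 hH1 hH2
  have hC₀1 : 1 ≤ C₀ := by nlinarith
  have hh1 : (1 : ℝ) ≤ h := by exact_mod_cast hh
  have hnpos : 0 < |(n : ℝ)| := lt_of_lt_of_le (by positivity) hn1
  have hn0 : n ≠ 0 := by
    rintro rfl
    simp at hnpos
  have hnr : (n : ℝ) ≠ 0 := by exact_mod_cast hn0
  have hz : 2 * (((2 * r : ℕ) : ℝ) * ((h : ℝ) * |(n : ℝ)⁻¹|)) ≤ 1 := by
    rw [abs_inv]
    push_cast
    rw [show 2 * (2 * (r : ℝ) * ((h : ℝ) * |(n : ℝ)|⁻¹)) = (4 * r * h) / |(n : ℝ)| by field_simp; ring,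
      div_le_one hnpos]
    refine le_trans ?_ hn1
    have : 4 * (r : ℝ) ≤ C₀ := by nlinarith
    gcongr
  obtain ⟨hu, hser⟩ := happ h (pol a) (natDegree_pol a) (coeff_pol_zero a) (coeff_pol_le a ha) _ hz
  set u := aeval ((n : ℝ)⁻¹) (pol a) with hu_def
  have hu1 : (1 : ℝ) / 2 ≤ 1 + u := by
    have := (abs_le.1 hu).1
    linarith
  have hu2 : 1 + u ≤ 3 / 2 := by
    have := (abs_le.1 hu).2
    linarith
  have hu0 : 0 < 1 + u := by linarith
  set w := (1 + u) ^ (((3 / 2 : ℚ)) : ℝ) with hw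
  have hw0 : 0 ≤ w := Real.rpow_nonneg hu0.le _
  have hw3 : w ^ 2 = (1 + u) ^ 3 := by
    rw [hw, ← Real.rpow_natCast, ← Real.rpow_mul hu0.le]
    push_cast
    norm_num
  have hw1 : 1 / 4 ≤ w := by
    have h1 : (1 / 4 : ℝ) ^ 2 ≤ w ^ 2 := by
      rw [hw3]
      calc (1 / 4 : ℝ) ^ 2 ≤ (1 / 2) ^ 3 := by norm_num
        _ ≤ (1 + u) ^ 3 := by gcongr
    exact le_of_sq_le_sq h1 hw0
  have hev : (n : ℝ) ^ (2 * r) = |(n : ℝ)| ^ (2 * r) := by
    rw [pow_mul, pow_mul, sq_abs]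
  refine ⟨(n : ℝ) ^ (3 * r) * w, ?_, ?_, ?_, ?_⟩
  · rw [mul_pow, hw3, mv_eq a n hn0, mul_pow, ← pow_mul, ← pow_mul]
    congr 2
    ring
  · rw [abs_mul, abs_pow, abs_of_nonneg hw0]
    have : 0 ≤ |(n : ℝ)| ^ (3 * r) := by positivity
    nlinarith
  · rw [mv_eq a n hn0, abs_mul, abs_pow, abs_of_pos hu0, mul_comm]
    gcongr
  · intro y
    obtain ⟨f, hf⟩ : ∃ f : ℕ → ℝ, f = fun k => ((cf (3 / 2) (4 * r - 1) (pol a) k : ℚ) : ℝ) := ⟨_, rfl⟩
    have hser' : |w - ∑ k ∈ range (4 * r - 1), f k * (n : ℝ)⁻¹ ^ k| ≤ C * ((h : ℝ) * |(n : ℝ)⁻¹|) ^ (4 * r - 1) := by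
      rw [hf]; exact hser
    -- the polynomial part
    obtain ⟨zf, hzf⟩ : ∃ zf : ℕ → ℤ, ∀ k, (D : ℚ) * cf (3 / 2) (4 * r - 1) (pol a) k = zf k :=
      ⟨fun k => (hden (pol a) k).choose, fun k => (hden (pol a) k).choose_spec⟩
    set g : ℝ := ∑ k ∈ range (3 * r + 1), f k * (n : ℝ) ^ (3 * r - k) with hg
    have hG : (D : ℝ) * g = ((∑ k ∈ range (3 * r + 1), zf k * n ^ (3 * r - k) : ℤ) : ℝ) := by
      rw [hg, Finset.mul_sum]
      push_cast
      refine Finset.sum_congr rfl fun k _ => ?_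
      have h1 : (D : ℝ) * f k = (zf k : ℝ) := by rw [hf]; dsimp only; exact_mod_cast hzf k
      rw [← mul_assoc, h1]
    obtain ⟨q, hq⟩ : ∃ q : ℝ, q = Qv r a n := ⟨_, rfl⟩
    rw [← hq] at hH1 hH2 ⊢
    have hsplit : (n : ℝ) ^ (3 * r) * (∑ k ∈ range (4 * r - 1), f k * (n : ℝ)⁻¹ ^ k) = g + q / (n : ℝ) ^ (r - 2) := by
      rw [← Finset.sum_range_add_sum_Ico _ (by omega : 3 * r + 1 ≤ 4 * r - 1), mul_add, Finset.mul_sum, hg]
      congr 1
      · refine Finset.sum_congr rfl fun k hk => ?_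
        rw [mem_range] at hk
        have e1 : (n : ℝ) ^ (3 * r) = (n : ℝ) ^ (3 * r - k) * (n : ℝ) ^ k := by
          rw [← pow_add]; congr 1; omega
        rw [e1, inv_pow]
        field_simp
      · rw [hq, Qv, Finset.sum_div, Finset.mul_sum]
        refine Finset.sum_bij' (fun k _ => k - 3 * r) (fun i _ => 3 * r + i) ?_ ?_ ?_ ?_ ?_
        · intro k hk
          rw [mem_Ico] at hk
          rw [mem_Icc]
          omega
        · intro i hi
          rw [mem_Icc] at hi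
          rw [mem_Ico]
          omega
        · intro k hk
          rw [mem_Ico] at hk
          omega
        · intro i hi
          omega
        · intro k hk
          rw [mem_Ico] at hk
          have h1 : f k = (lamb r a (k - 3 * r) : ℝ) := by
            rw [hf, lamb]
            dsimp only
            congr 2
            omega
          rw [h1]
          have e1 : (n : ℝ) ^ (r - 2) = (n : ℝ) ^ (r - 2 - (k - 3 * r)) * (n : ℝ) ^ (k - 3 * r) := by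
            rw [← pow_add]; congr 1; omega
          have e2 : (n : ℝ) ^ k = (n : ℝ) ^ (3 * r) * (n : ℝ) ^ (k - 3 * r) := by
            rw [← pow_add]; congr 1; omega
          rw [inv_pow, e1, e2]
          field_simp
    obtain ⟨ρ, hρ⟩ : ∃ ρ : ℝ, ρ = |q| / |(n : ℝ)| ^ (r - 2) := ⟨_, rfl⟩
    have hρ0 : 0 ≤ ρ := by rw [hρ]; positivity
    have hρ1 : |q / (n : ℝ) ^ (r - 2)| = ρ := by rw [abs_div, abs_pow, hρ]
    rw [← hρ]
    have hρC : C₀ * ρ ≤ 1 := by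
      rw [hρ, ← mul_div_assoc, div_le_one (by positivity)]
      exact hH1
    have herr : |(n : ℝ) ^ (3 * r) * w - (g + q / (n : ℝ) ^ (r - 2))| ≤ ρ / 2 := by
      rw [← hsplit, ← mul_sub, abs_mul, abs_pow]
      have h1 : |(n : ℝ)| ^ (3 * r) * (C * ((h : ℝ) * |(n : ℝ)⁻¹|) ^ (4 * r - 1)) =
          C * (h : ℝ) ^ (4 * r - 1) / (|(n : ℝ)| ^ (r - 2) * |(n : ℝ)|) := by
        have e1 : |(n : ℝ)| ^ (4 * r - 1) = |(n : ℝ)| ^ (3 * r) * (|(n : ℝ)| ^ (r - 2) * |(n : ℝ)|) := by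
          rw [← pow_succ, ← pow_add]; congr 1; omega
        rw [mul_pow, abs_inv, inv_pow, e1]
        field_simp
      refine (mul_le_mul_of_nonneg_left hser' (by positivity)).trans ?_
      rw [h1, hρ, div_div, div_le_div_iff₀ (by positivity) (by positivity)]
      have h2 : 2 * C * (h : ℝ) ^ (4 * r - 1) ≤ |q| * |(n : ℝ)| := by
        refine le_trans ?_ hH2
        gcongr
        nlinarith
      have h3 : 0 ≤ |(n : ℝ)| ^ (r - 2) := by positivity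
      calc C * (h : ℝ) ^ (4 * r - 1) * (|(n : ℝ)| ^ (r - 2) * 2) =
            (2 * C * (h : ℝ) ^ (4 * r - 1)) * |(n : ℝ)| ^ (r - 2) := by ring
        _ ≤ (|q| * |(n : ℝ)|) * |(n : ℝ)| ^ (r - 2) := by gcongr
        _ = _ := by ring
    by_cases hx : (D : ℝ) * g = D * y
    · -- the integer is the value of the polynomial part
      have hgx : g = y := mul_left_cancel₀ (by positivity) hx
      rw [hgx] at herr
      have h2 := abs_sub_abs_le_abs_sub (q / (n : ℝ) ^ (r - 2)) (-((n : ℝ) ^ (3 * r) * w - y - q / (n : ℝ) ^ (r - 2)))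
      have h3 : q / (n : ℝ) ^ (r - 2) - -((n : ℝ) ^ (3 * r) * w - y - q / (n : ℝ) ^ (r - 2)) =
          (n : ℝ) ^ (3 * r) * w - y := by ring
      rw [h3, abs_neg] at h2
      have h4 : (n : ℝ) ^ (3 * r) * w - y - q / (n : ℝ) ^ (r - 2) =
          (n : ℝ) ^ (3 * r) * w - (y + q / (n : ℝ) ^ (r - 2)) := by ring
      rw [h4, hρ1] at h2
      linarith
    · -- a different integer
      have h1 : 1 / (D : ℝ) ≤ |g - y| := by
        have h2 : (1 : ℝ) ≤ |(D : ℝ) * g - D * y| := by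
          rw [hG] at hx ⊢
          have h3 : ((∑ k ∈ range (3 * r + 1), zf k * n ^ (3 * r - k) : ℤ) : ℝ) - D * y =
              (((∑ k ∈ range (3 * r + 1), zf k * n ^ (3 * r - k)) - D * y : ℤ) : ℝ) := by push_cast; ring
          rw [h3]
          have h4 : (∑ k ∈ range (3 * r + 1), zf k * n ^ (3 * r - k)) - D * y ≠ 0 := by
            intro h5
            apply hx
            have h6 : (∑ k ∈ range (3 * r + 1), zf k * n ^ (3 * r - k)) = D * y := by linarith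
            rw [h6]; push_cast; ring
          exact_mod_cast Int.one_le_abs h4
        rw [← mul_sub, abs_mul, abs_of_pos (by positivity : (0 : ℝ) < D)] at h2
        rw [div_le_iff₀ (by positivity)]
        linarith
      have h3 : |(n : ℝ) ^ (3 * r) * w - g| ≤ 3 / 2 * ρ := by
        have e1 : (n : ℝ) ^ (3 * r) * w - g =
            ((n : ℝ) ^ (3 * r) * w - (g + q / (n : ℝ) ^ (r - 2))) + q / (n : ℝ) ^ (r - 2) := by ring
        rw [e1]
        refine (abs_add_le _ _).trans ?_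
        rw [hρ1]
        linarith
      have h5 : |g - y| ≤ |(n : ℝ) ^ (3 * r) * w - g| + |(n : ℝ) ^ (3 * r) * w - y| := by
        have e1 : g - y = -((n : ℝ) ^ (3 * r) * w - g) + ((n : ℝ) ^ (3 * r) * w - y) := by ring
        rw [e1]
        refine (abs_add_le _ _).trans ?_
        rw [abs_neg]
      have h6 : 3 * (D : ℝ) * ρ ≤ 1 := by
        refine le_trans ?_ hρC
        gcongr
        nlinarith
      have h7 : 3 * ρ ≤ 1 / D := by
        rw [le_div_iff₀ (by positivity)]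
        linarith
      linarith

/-- **Hall's inequality for large arguments.** -/
theorem hallM (r : ℕ) (hr : 3 ≤ r) (A : ℕ) : ∃ C₀ : ℝ, 1 ≤ C₀ ∧ ∀ h : ℕ, 1 ≤ h → ∀ a : Fin (2 * r) → ℤ,
    InBox h a → ∀ n : ℤ, C₀ * h ≤ |(n : ℝ)| → C₀ * |Qv r a n| ≤ |(n : ℝ)| ^ (r - 2) →
    C₀ * (h : ℝ) ^ (4 * r - 1) ≤ |Qv r a n| * |(n : ℝ)| → ¬ Exc A (mv a n) := by
  obtain ⟨C₁, hC₁, hnear⟩ := nearM r hr
  refine ⟨C₁ + 100 * (A + 1), by nlinarith [(Nat.cast_nonneg A : (0 : ℝ) ≤ A)], ?_⟩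
  intro h hh a ha n hn1 hH1 hH2 ⟨y, _, hy⟩
  have hA0 : (0 : ℝ) ≤ A := Nat.cast_nonneg A
  obtain ⟨s, hs2, hs, hx, hsy⟩ := hnear (C₁ + 100 * (A + 1)) (by nlinarith) h hh a ha n hn1 hH1 hH2
  have hh1 : (1 : ℝ) ≤ h := by exact_mod_cast hh
  obtain ⟨m, hm⟩ : ∃ m : ℝ, m = |(n : ℝ)| := ⟨_, rfl⟩
  obtain ⟨q, hq⟩ : ∃ q : ℝ, q = |Qv r a n| := ⟨_, rfl⟩
  rw [← hm] at hn1 hH2 hs hx hsy
  rw [← hq] at hH2 hsy
  have hq0 : 0 ≤ q := by rw [hq]; exact abs_nonneg _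
  have hm1 : 1 ≤ m := by nlinarith
  have hm0 : 0 < m := by linarith
  have hqm : 100 * ((A : ℝ) + 1) ≤ q * m := by
    refine le_trans ?_ hH2
    have : (1 : ℝ) ≤ (h : ℝ) ^ (4 * r - 1) := one_le_pow₀ hh1
    nlinarith
  obtain ⟨k, hk⟩ : ∃ k : ℝ, k = |(y : ℝ) ^ 2 - (mv a n : ℝ) ^ 3| := ⟨_, rfl⟩
  have hk0 : 0 ≤ k := by rw [hk]; exact abs_nonneg _
  have hklow : q / m ^ (r - 2) / 2 * |s| ≤ k := by
    rw [hk, ← hs2]
    have hfac : (y : ℝ) ^ 2 - s ^ 2 = -((s - y) * (s + y)) := by ring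
    rw [hfac, abs_neg, abs_mul]
    have h1 := hsy y
    have h2 := hsy (-y)
    push_cast at h2
    rw [sub_neg_eq_add] at h2
    have h3 : 2 * |s| ≤ |s - y| + |s + y| := by
      have : 2 * |s| = |(s - y) + (s + y)| := by
        rw [show (s - y) + (s + y) = 2 * s by ring, abs_mul, abs_two]
      rw [this]
      exact abs_add_le _ _
    have h4 : 0 ≤ q / m ^ (r - 2) / 2 := by positivity
    rcases le_total |s - y| |s + y| with h5 | h5
    · have h6 : |s| ≤ |s + y| := by linarith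
      exact mul_le_mul h1 h6 (abs_nonneg _) (abs_nonneg _)
    · have h6 : |s| ≤ |s - y| := by linarith
      rw [mul_comm (|s - (y : ℝ)|)]
      exact mul_le_mul h2 h6 (abs_nonneg _) (abs_nonneg _)
  have hklow2 : 10 * ((A : ℝ) + 1) * m ^ (2 * r + 1) ≤ k := by
    refine le_trans ?_ hklow
    have h1 : q / m ^ (r - 2) / 2 * (m ^ (3 * r) / 4) ≤ q / m ^ (r - 2) / 2 * |s| := by gcongr
    refine le_trans ?_ h1
    have h2 : m ^ (3 * r) = m ^ (r - 2) * (m * m ^ (2 * r + 1)) := by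
      rw [← pow_succ', ← pow_add]; congr 1; omega
    have h3 : q / m ^ (r - 2) / 2 * (m ^ (3 * r) / 4) = q * m * m ^ (2 * r + 1) / 8 := by
      rw [h2]; field_simp; ring
    rw [h3]
    have h4 : 0 ≤ m ^ (2 * r + 1) := by positivity
    nlinarith
  have hcon : k ^ 2 < A * |(mv a n : ℝ)| := by
    rw [hk, sq_abs]
    exact_mod_cast hy
  have h5 : (A : ℝ) * |(mv a n : ℝ)| ≤ k ^ 2 := by
    have h6 : 1 ≤ m ^ (2 * r + 1) := one_le_pow₀ hm1
    have h7 : m ^ (2 * r) ≤ m ^ (2 * r + 1) := pow_le_pow_right₀ hm1 (by omega)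
    have h8 : 1 ≤ k := le_trans (by nlinarith) hklow2
    calc (A : ℝ) * |(mv a n : ℝ)| ≤ A * (3 / 2 * m ^ (2 * r)) := by gcongr
      _ ≤ 10 * ((A : ℝ) + 1) * m ^ (2 * r + 1) := by nlinarith
      _ ≤ k := hklow2
      _ ≤ k ^ 2 := le_self_pow₀ h8 (by norm_num)
  linarith

end T9h23.Ab
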