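import Pool.Agent.T9h23.Ab.A4
import Pool.Agent.T9h23.Pe.O6

/-! # The expansions of the linear perturbations -/

set_option autoImplicit false

namespace T9h23.Ab

open Finset Polynomial T9h23.Ru T9h23.Pe

theorem pow_exp (P R : ℤ[X]) (hP : X ∣ P) (hR : X ∣ R) (i : ℕ) : ∃ W : ℤ[X],
    (P + R) ^ (i + 1) = P ^ (i + 1) + ((i + 1 : ℕ) : ℤ[X]) * P ^ i * R + W * R ^ 2 ∧
    W.coeff 0 = if i = 1 then 1 else 0 := by
  induction i with
  | zero =>
    refine ⟨0, ?_, ?_⟩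
    · push_cast; ring
    · simp
  | succ i ih =>
    obtain ⟨W, hW, hW0⟩ := ih
    refine ⟨W * (P + R) + ((i + 1 : ℕ) : ℤ[X]) * P ^ i, ?_, ?_⟩
    · rw [pow_succ, hW]
      push_cast
      ring
    · have h1 : (P + R).coeff 0 = 0 := by
        rw [coeff_add, X_dvd_iff.1 hP, X_dvd_iff.1 hR, add_zero]
      rw [coeff_add, mul_coeff_zero, h1, mul_zero, zero_add, mul_coeff_zero]
      rcases Nat.eq_zero_or_pos i with h | h
      · subst h
        simp
      · have h2 : (P ^ i).coeff 0 = 0 := by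
          rw [coeff_zero_eq_eval_zero, eval_pow, ← coeff_zero_eq_eval_zero, X_dvd_iff.1 hP, zero_pow (by omega)]
        rw [h2, mul_zero, if_neg (by omega)]

theorem pol_pert {d : ℕ} (hd : 2 ≤ d) (g : Fin d → ℤ) (p q : ℤ) :
    pol (pert g p q) = pol g + (C p * X ^ (d - 1) + C q * X ^ d) := by
  unfold pol pert
  simp only [map_add, add_mul]
  rw [Finset.sum_add_distrib, Finset.sum_add_distrib]
  have h1 : ∑ i : Fin d, C (if (i : ℕ) = 1 then p else 0) * (X : ℤ[X]) ^ (d - (i : ℕ)) = C p * X ^ (d - 1) := by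
    rw [Finset.sum_eq_single (⟨1, by omega⟩ : Fin d)]
    · simp
    · intro i _ hi
      rw [if_neg, map_zero, zero_mul]
      intro h
      exact hi (Fin.ext h)
    · intro h
      exact absurd (mem_univ _) h
  have h2 : ∑ i : Fin d, C (if (i : ℕ) = 0 then q else 0) * (X : ℤ[X]) ^ (d - (i : ℕ)) = C q * X ^ d := by
    rw [Finset.sum_eq_single (⟨0, by omega⟩ : Fin d)]
    · simp
    · intro i _ hi
      rw [if_neg, map_zero, zero_mul]
      intro h
      exact hi (Fin.ext h)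
    · intro h
      exact absurd (mem_univ _) h
  rw [h1, h2]
  ring

theorem coeff_pow_pert {d : ℕ} (hd : 2 ≤ d) (P : ℤ[X]) (hP : P.coeff 0 = 0) (p q : ℤ) (i k : ℕ) (hk1 : d ≤ k)
    (hk : k ≤ 2 * (d - 1)) :
    ((P + (C p * X ^ (d - 1) + C q * X ^ d)) ^ (i + 1)).coeff k = (P ^ (i + 1)).coeff k +
      ((i + 1 : ℕ) : ℤ) * (p * (P ^ i).coeff (k - (d - 1)) + q * (P ^ i).coeff (k - d)) +
      (if i = 1 ∧ k = 2 * (d - 1) then p ^ 2 else 0) := by
  obtain ⟨R, hR⟩ : ∃ R : ℤ[X], R = C p * X ^ (d - 1) + C q * X ^ d := ⟨_, rfl⟩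
  have hRX : R = X ^ (d - 1) * (C p + C q * X) := by
    rw [hR]
    have : (X : ℤ[X]) ^ d = X ^ (d - 1) * X := by
      rw [← pow_succ]; congr 1; omega
    rw [this]; ring
  have hXR : X ∣ R := by
    rw [hRX]
    exact Dvd.dvd.mul_right (dvd_pow_self X (by omega)) _
  rw [← hR]
  obtain ⟨W, hW, hW0⟩ := pow_exp P R (X_dvd_iff.2 hP) hXR i
  rw [hW, coeff_add, coeff_add]
  congr 1
  · congr 1
    rw [mul_assoc]
    have h1 : (((i + 1 : ℕ) : ℤ[X]) * (P ^ i * R)).coeff k = ((i + 1 : ℕ) : ℤ) * (P ^ i * R).coeff k := by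
      rw [← C_eq_natCast, coeff_C_mul]
    rw [h1]
    congr 1
    rw [hR, mul_add, coeff_add]
    have h2 : P ^ i * (C p * X ^ (d - 1)) = C p * (P ^ i * X ^ (d - 1)) := by ring
    have h3 : P ^ i * (C q * X ^ d) = C q * (P ^ i * X ^ d) := by ring
    rw [h2, h3, coeff_C_mul, coeff_C_mul, coeff_mul_X_pow', coeff_mul_X_pow', if_pos (by omega), if_pos hk1]
  · have h4 : W * R ^ 2 = X ^ (2 * (d - 1)) * (W * (C p + C q * X) ^ 2) := by
      rw [hRX, mul_pow, ← pow_mul, mul_comm (d - 1) 2]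
      ring
    rw [h4, coeff_X_pow_mul']
    rcases Nat.lt_or_ge k (2 * (d - 1)) with h | h
    · rw [if_neg (by omega), if_neg (by omega)]
    · have h5 : k = 2 * (d - 1) := by omega
      rw [if_pos h, h5, Nat.sub_self, mul_coeff_zero, hW0]
      have h6 : ((C p + C q * X) ^ 2 : ℤ[X]).coeff 0 = p ^ 2 := by
        rw [coeff_zero_eq_eval_zero]
        simp
      rw [h6]
      by_cases h7 : i = 1
      · rw [if_pos h7, if_pos ⟨h7, rfl⟩, one_mul]
      · rw [if_neg h7, if_neg (fun hh => h7 hh.1), zero_mul]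

/-- the linear part -/
noncomputable def lin (ρ : ℚ) (J : ℕ) (P : ℤ[X]) (m : ℕ) : ℚ :=
  ∑ i ∈ range (J - 1), bc ρ (i + 1) * ((i + 1 : ℕ) : ℚ) * ((P ^ i).coeff m : ℚ)

theorem cf_pert (ρ : ℚ) (J : ℕ) (hJ : 3 ≤ J) {d : ℕ} (hd : 2 ≤ d) (g : Fin d → ℤ) (p q : ℤ) (k : ℕ) (hk1 : d ≤ k)
    (hk : k ≤ 2 * (d - 1)) :
    cf ρ J (pol (pert g p q)) k = cf ρ J (pol g) k + p * lin ρ J (pol g) (k - (d - 1)) + q * lin ρ J (pol g) (k - d) +
      (if k = 2 * (d - 1) then bc ρ 2 * (p : ℚ) ^ 2 else 0) := by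
  obtain ⟨J', rfl⟩ : ∃ J', J = J' + 1 := ⟨J - 1, by omega⟩
  unfold cf lin
  rw [Nat.add_sub_cancel, Finset.sum_range_succ', Finset.sum_range_succ', pol_pert hd]
  have h1 : ∀ i ∈ range J', bc ρ (i + 1) *
      ((((pol g + (C p * X ^ (d - 1) + C q * X ^ d)) ^ (i + 1)).coeff k : ℤ) : ℚ) =
      bc ρ (i + 1) * (((pol g) ^ (i + 1)).coeff k : ℚ) +
      (p * (bc ρ (i + 1) * ((i + 1 : ℕ) : ℚ) * (((pol g) ^ i).coeff (k - (d - 1)) : ℚ)) +
      q * (bc ρ (i + 1) * ((i + 1 : ℕ) : ℚ) * (((pol g) ^ i).coeff (k - d) : ℚ))) +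
      (if i = 1 then (if k = 2 * (d - 1) then bc ρ 2 * (p : ℚ) ^ 2 else 0) else 0) := by
    intro i _
    rw [coeff_pow_pert hd (pol g) (coeff_pol_zero g) p q i k hk1 hk]
    by_cases h2 : i = 1
    · subst h2
      by_cases h3 : k = 2 * (d - 1)
      · rw [if_pos ⟨rfl, h3⟩, if_pos rfl, if_pos h3]
        push_cast
        ring
      · rw [if_neg (fun hh => h3 hh.2), if_pos rfl, if_neg h3]
        push_cast
        ring
    · rw [if_neg (fun hh => h2 hh.1), if_neg h2]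
      push_cast
      ring
  rw [Finset.sum_congr rfl h1, Finset.sum_add_distrib, Finset.sum_add_distrib, Finset.sum_add_distrib,
    ← Finset.mul_sum, ← Finset.mul_sum, Finset.sum_ite_eq' (range J') 1, if_pos (mem_range.2 (by omega))]
  simp only [pow_zero]
  ring

theorem bc_two : bc (3 / 2) 2 = 3 / 8 := by
  unfold bc
  have h := Ring.descPochhammer_eq_factorial_smul_choose (R := ℚ) (3 / 2) 2
  have h1 : (descPochhammer ℤ 2).smeval (3 / 2 : ℚ) = 3 / 4 := by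
    rw [descPochhammer_succ_right, descPochhammer_one]
    rw [Polynomial.smeval_mul]
    simp [Polynomial.smeval_sub]
    norm_num
  rw [h1] at h
  have h2 : Nat.factorial 2 = 2 := rfl
  rw [h2, nsmul_eq_mul] at h
  push_cast at h
  linarith

/-- the coefficient of `p` -/
noncomputable def al (r : ℕ) (g : Fin (2 * r) → ℤ) (i : ℕ) : ℚ := lin (3 / 2) (4 * r - 1) (pol g) (r + (i + 1))

/-- the coefficient of `q` -/
noncomputable def be (r : ℕ) (g : Fin (2 * r) → ℤ) (i : ℕ) : ℚ := lin (3 / 2) (4 * r - 1) (pol g) (r + i)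

theorem be_succ (r : ℕ) (g : Fin (2 * r) → ℤ) (i : ℕ) : be r g (i + 1) = al r g i := rfl

theorem lamb_pert (r : ℕ) (hr : 3 ≤ r) (g : Fin (2 * r) → ℤ) (p q : ℤ) (i : ℕ) (hi : i ≤ r - 2) :
    lamb r (pert g p q) i = lamb r g i + p * al r g i + q * be r g i +
      (if i = r - 2 then 3 / 8 * (p : ℚ) ^ 2 else 0) := by
  unfold lamb al be
  rw [cf_pert (3 / 2) (4 * r - 1) (by omega) (by omega) g p q (3 * r + i) (by omega) (by omega), bc_two]
  have h1 : 3 * r + i - (2 * r - 1) = r + (i + 1) := by omega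
  have h2 : 3 * r + i - 2 * r = r + i := by omega
  rw [h1, h2]
  congr 1
  by_cases h3 : i = r - 2
  · rw [if_pos (by omega), if_pos h3]
  · rw [if_neg (by omega), if_neg h3]

end T9h23.Ab
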