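import Pool.Agent.T9h23.Ab.A5

/-! # Lower bounds for the main part of the expansion -/

set_option autoImplicit false

namespace T9h23.Ab

open Finset Polynomial T9h23.Ru T9h23.Pe

/-- a box containing the perturbations -/
theorem boxB {d : ℕ} (hd : 3 ≤ d) (g : Fin d → ℤ) : ∃ B : ℕ, 1 ≤ B ∧ ∀ H k : ℕ, 1 ≤ H → 1 ≤ k →
    H ≤ (2 * k) ^ (d - 1) → ∀ c ∈ Pe.sq H, InBox (B * k) (pert g c.1 c.2) := by
  obtain ⟨G, hG⟩ : ∃ G : ℕ, (G : ℤ) = gs g := ⟨(gs g).toNat, Int.toNat_of_nonneg (by linarith [gs_pos g])⟩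
  have hG1 : 1 ≤ G := by
    have := gs_pos g
    rw [← hG] at this
    exact_mod_cast this
  refine ⟨4 * G, by omega, ?_⟩
  intro H k hH hk0 hk3 c hc i
  rw [mem_sq] at hc
  have h1 : |g i| ≤ G - 1 := by
    rw [hG]
    unfold gs
    rw [add_sub_cancel_left]
    exact Finset.single_le_sum (f := fun i => |g i|) (fun j _ => abs_nonneg _) (mem_univ i)
  have hh1 : (1 : ℤ) ≤ ((4 * G * k : ℕ) : ℤ) := by
    have : 1 ≤ 4 * G * k := by nlinarith
    exact_mod_cast this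
  have hbig : (G : ℤ) + H ≤ ((4 * G * k : ℕ) : ℤ) ^ (d - 1) := by
    have h2 : G + H ≤ (4 * G * k) ^ (d - 1) := by
      have h3 : 4 * G * k = (2 * G) * (2 * k) := by ring
      rw [h3, mul_pow]
      have h4 : 2 * G ≤ (2 * G) ^ (d - 1) := Nat.le_self_pow (by omega) _
      calc G + H ≤ 2 * G * H := by nlinarith
        _ ≤ (2 * G) ^ (d - 1) * (2 * k) ^ (d - 1) := Nat.mul_le_mul h4 hk3
    exact_mod_cast h2
  have hi := i.isLt
  have hH0 : (0 : ℤ) ≤ H := by positivity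
  rcases Nat.lt_or_ge (i : ℕ) 2 with h2 | h2
  · have h3 : |pert g c.1 c.2 i| ≤ (G : ℤ) + H := by
      unfold pert
      split_ifs with h4 h5 h5
      · omega
      · rw [add_zero]
        refine (abs_add_le _ _).trans ?_
        linarith [hc.1]
      · rw [add_zero]
        refine (abs_add_le _ _).trans ?_
        linarith [hc.2]
      · omega
    refine h3.trans (hbig.trans ?_)
    exact pow_le_pow_right₀ hh1 (by omega)
  · have h3 : pert g c.1 c.2 i = g i := by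
      unfold pert
      rw [if_neg (by omega), if_neg (by omega)]
      ring
    rw [h3]
    have h4 : |g i| ≤ ((4 * G * k : ℕ) : ℤ) := by
      have h5 : (G : ℤ) ≤ ((4 * G * k : ℕ) : ℤ) := by
        have : G ≤ 4 * G * k := by nlinarith
        exact_mod_cast this
      linarith
    exact h4.trans (le_self_pow₀ hh1 (by omega))

theorem lamb_le (r : ℕ) (hr : 3 ≤ r) : ∃ B : ℝ, 1 ≤ B ∧ ∀ h : ℕ, ∀ a : Fin (2 * r) → ℤ, InBox h a →
    ∀ i ≤ r - 2, |(lamb r a i : ℝ)| ≤ B * (h : ℝ) ^ (3 * r + i) := by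
  obtain ⟨B, hB, hcf⟩ := cf_le (3 / 2) (4 * r - 1) (4 * r - 1)
  refine ⟨B + 1, by linarith, ?_⟩
  intro h a ha i hi
  refine (hcf h (pol a) (coeff_pol_le a ha) (3 * r + i) (by omega)).trans ?_
  gcongr
  linarith

/-- **Large arguments with a large main part.** -/
theorem condQ (r : ℕ) (hr : 4 ≤ r) (A : ℕ) : ∃ C : ℝ, 1 ≤ C ∧ ∀ C' : ℝ, C ≤ C' → ∀ h : ℕ, 1 ≤ h →
    ∀ a : Fin (2 * r) → ℤ, InBox h a → ∀ n : ℤ, C' * (h : ℝ) ^ (4 * r - 3) ≤ |(n : ℝ)| →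
    (h : ℝ) ^ 2 ≤ |Qv r a n| → ¬ Exc A (mv a n) := by
  obtain ⟨C₀, hC₀, hall⟩ := hallM r (by omega) A
  obtain ⟨B, hB, hlam⟩ := lamb_le r (by omega)
  have hr1 : (1 : ℝ) ≤ r := by exact_mod_cast (by omega : 1 ≤ r)
  have hrB : 1 ≤ (r : ℝ) * B := by nlinarith
  refine ⟨C₀ * (r * B), by nlinarith, ?_⟩
  intro C' hC' h hh a ha n hn hQ
  have hh1 : (1 : ℝ) ≤ h := by exact_mod_cast hh
  have hC0' : C₀ ≤ C' := le_trans (by nlinarith) hC'
  obtain ⟨m, hm⟩ : ∃ m : ℝ, m = |(n : ℝ)| := ⟨_, rfl⟩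
  rw [← hm] at hn
  have hC'1 : 1 ≤ C' := hC₀.trans hC0'
  have hhm : (h : ℝ) ≤ (h : ℝ) ^ (4 * r - 3) := le_self_pow₀ hh1 (by omega)
  have hm1 : (h : ℝ) ≤ m := by
    refine le_trans ?_ hn
    refine hhm.trans ?_
    exact le_mul_of_one_le_left (by positivity) hC'1
  have hm0 : 0 < m := by linarith
  refine hall h hh a ha n ?_ ?_ ?_
  · rw [← hm]
    refine le_trans ?_ hn
    gcongr
  · rw [← hm]
    have h1 : |Qv r a n| ≤ r * (B * (h : ℝ) ^ (3 * r + 1) * m ^ (r - 3)) := by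
      unfold Qv
      refine (Finset.abs_sum_le_sum_abs _ _).trans ?_
      have h2 : ∀ i ∈ Icc 1 (r - 2), |(lamb r a i : ℝ) * (n : ℝ) ^ (r - 2 - i)| ≤
          B * (h : ℝ) ^ (3 * r + 1) * m ^ (r - 3) := by
        intro i hi
        rw [mem_Icc] at hi
        rw [abs_mul, abs_pow, ← hm]
        have e1 : (h : ℝ) ^ (3 * r + i) = (h : ℝ) ^ (3 * r + 1) * (h : ℝ) ^ (i - 1) := by
          rw [← pow_add]; congr 1; omega
        have e2 : m ^ (r - 3) = m ^ (i - 1) * m ^ (r - 2 - i) := by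
          rw [← pow_add]; congr 1; omega
        calc |(lamb r a i : ℝ)| * m ^ (r - 2 - i) ≤ (B * (h : ℝ) ^ (3 * r + i)) * m ^ (r - 2 - i) := by
              gcongr
              exact hlam h a ha i hi.2
          _ = B * (h : ℝ) ^ (3 * r + 1) * ((h : ℝ) ^ (i - 1) * m ^ (r - 2 - i)) := by rw [e1]; ring
          _ ≤ B * (h : ℝ) ^ (3 * r + 1) * (m ^ (i - 1) * m ^ (r - 2 - i)) := by gcongr
          _ = _ := by rw [e2]
      refine (Finset.sum_le_card_nsmul _ _ _ h2).trans ?_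
      rw [Nat.card_Icc, nsmul_eq_mul]
      have h3 : ((r - 2 + 1 - 1 : ℕ) : ℝ) ≤ r := by exact_mod_cast (by omega : r - 2 + 1 - 1 ≤ r)
      gcongr
    have h2 : C₀ * (r * B) * (h : ℝ) ^ (3 * r + 1) ≤ m := by
      refine le_trans ?_ hn
      have h3 : (h : ℝ) ^ (3 * r + 1) ≤ (h : ℝ) ^ (4 * r - 3) := pow_le_pow_right₀ hh1 (by omega)
      gcongr
    have h3 : m ^ (r - 2) = m * m ^ (r - 3) := by
      rw [← pow_succ']; congr 1; omega
    rw [h3]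
    calc C₀ * |Qv r a n| ≤ C₀ * (r * (B * (h : ℝ) ^ (3 * r + 1) * m ^ (r - 3))) := by gcongr
      _ = (C₀ * (r * B) * (h : ℝ) ^ (3 * r + 1)) * m ^ (r - 3) := by ring
      _ ≤ _ := by gcongr
  · rw [← hm]
    have h1 : (h : ℝ) ^ (4 * r - 1) = (h : ℝ) ^ 2 * (h : ℝ) ^ (4 * r - 3) := by
      rw [← pow_add]; congr 1; omega
    rw [h1]
    calc C₀ * ((h : ℝ) ^ 2 * (h : ℝ) ^ (4 * r - 3)) = (h : ℝ) ^ 2 * (C₀ * (h : ℝ) ^ (4 * r - 3)) := by ring
      _ ≤ |Qv r a n| * (C' * (h : ℝ) ^ (4 * r - 3)) := by gcongr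
      _ ≤ _ := by gcongr

/-- the first nonzero coefficient has index at most `r - 4` -/
theorem caseA (r : ℕ) (hr : 4 ≤ r) : ∃ C : ℝ, 1 ≤ C ∧ ∀ C' : ℝ, C ≤ C' → ∀ h : ℕ, 1 ≤ h →
    ∀ a : Fin (2 * r) → ℤ, InBox h a → ∀ n : ℤ, C' * (h : ℝ) ^ (4 * r - 3) ≤ |(n : ℝ)| →
    ∀ i₀ : ℕ, 1 ≤ i₀ → i₀ + 4 ≤ r → (∀ i, 1 ≤ i → i < i₀ → lamb r a i = 0) → lamb r a i₀ ≠ 0 →
    (h : ℝ) ^ 2 ≤ |Qv r a n| := by
  obtain ⟨B, hB, hlam⟩ := lamb_le r (by omega)
  obtain ⟨D, hD, hden⟩ := cf_den (3 / 2) (4 * r - 1)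
  have hDr : (1 : ℝ) ≤ D := by exact_mod_cast hD
  have hr1 : (1 : ℝ) ≤ r := by exact_mod_cast (by omega : 1 ≤ r)
  have hrB : 1 ≤ (r : ℝ) * B := by nlinarith
  refine ⟨2 * D * (r * B), by nlinarith, ?_⟩
  intro C hC h hh a ha n hn i₀ hi1 hi4 hzero hne
  have hh1 : (1 : ℝ) ≤ h := by exact_mod_cast hh
  have hC1 : 1 ≤ C := le_trans (by nlinarith) hC
  have hC2D : 2 * (D : ℝ) ≤ C := le_trans (by nlinarith) hC
  obtain ⟨m, hm⟩ : ∃ m : ℝ, m = |(n : ℝ)| := ⟨_, rfl⟩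
  rw [← hm] at hn
  have hhm : (h : ℝ) ≤ (h : ℝ) ^ (4 * r - 3) := le_self_pow₀ hh1 (by omega)
  have hm1 : (h : ℝ) ≤ m := by
    refine le_trans ?_ hn
    refine hhm.trans ?_
    exact le_mul_of_one_le_left (by positivity) hC1
  have hm0 : 0 < m := by linarith
  have hm11 : 1 ≤ m := hh1.trans hm1
  obtain ⟨Λ, hΛ⟩ : ∃ Λ : ℝ, Λ = (lamb r a i₀ : ℝ) := ⟨_, rfl⟩
  have hΛ1 : 1 ≤ D * |Λ| := by
    obtain ⟨z, hz⟩ := hden (pol a) (3 * r + i₀)
    have hz' : (D : ℝ) * Λ = z := by rw [hΛ, lamb]; exact_mod_cast hz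
    have hz0 : z ≠ 0 := by
      rintro rfl
      rw [Int.cast_zero] at hz
      rcases mul_eq_zero.1 hz with h1 | h1
      · have : (D : ℚ) ≠ 0 := by positivity
        exact this h1
      · exact hne h1
    have h2 : (D : ℝ) * |Λ| = |(z : ℝ)| := by
      rw [← hz', abs_mul, abs_of_pos (by linarith : (0 : ℝ) < D)]
    rw [h2]
    exact_mod_cast Int.one_le_abs hz0
  have hmem : i₀ ∈ Icc 1 (r - 2) := by rw [mem_Icc]; omega
  have hsum : Qv r a n = Λ * (n : ℝ) ^ (r - 2 - i₀) +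
      ∑ i ∈ (Icc 1 (r - 2)).erase i₀, (lamb r a i : ℝ) * (n : ℝ) ^ (r - 2 - i) := by
    unfold Qv
    rw [hΛ, Finset.add_sum_erase _ (fun i => (lamb r a i : ℝ) * (n : ℝ) ^ (r - 2 - i)) hmem]
  have hrest : |∑ i ∈ (Icc 1 (r - 2)).erase i₀, (lamb r a i : ℝ) * (n : ℝ) ^ (r - 2 - i)| ≤
      r * (B * (m ^ (r - 2 - i₀) / C)) := by
    refine (Finset.abs_sum_le_sum_abs _ _).trans ?_
    have h2 : ∀ i ∈ (Icc 1 (r - 2)).erase i₀, |(lamb r a i : ℝ) * (n : ℝ) ^ (r - 2 - i)| ≤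
        B * (m ^ (r - 2 - i₀) / C) := by
      intro i hi
      rw [mem_erase, mem_Icc] at hi
      obtain ⟨hne', hi1', hi2'⟩ := hi
      rcases Nat.lt_or_ge i i₀ with h3 | h3
      · rw [hzero i hi1' h3]
        rw [Rat.cast_zero, zero_mul, abs_zero]
        positivity
      · have h4 : i₀ + 1 ≤ i := by omega
        rw [abs_mul, abs_pow, ← hm]
        have e1 : (h : ℝ) ^ (3 * r + i) = (h : ℝ) ^ (3 * r + i₀ + 1) * (h : ℝ) ^ (i - i₀ - 1) := by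
          rw [← pow_add]; congr 1; omega
        have e2 : m ^ (r - 2 - i₀) = m * (m ^ (i - i₀ - 1) * m ^ (r - 2 - i)) := by
          rw [← pow_add, ← pow_succ']; congr 1; omega
        have e3 : (h : ℝ) ^ (3 * r + i₀ + 1) ≤ m / C := by
          rw [le_div_iff₀ (by linarith)]
          refine le_trans ?_ hn
          rw [mul_comm]
          gcongr
          omega
        calc |(lamb r a i : ℝ)| * m ^ (r - 2 - i) ≤ (B * (h : ℝ) ^ (3 * r + i)) * m ^ (r - 2 - i) := by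
              gcongr
              exact hlam h a ha i hi2'
          _ = B * (h : ℝ) ^ (3 * r + i₀ + 1) * ((h : ℝ) ^ (i - i₀ - 1) * m ^ (r - 2 - i)) := by rw [e1]; ring
          _ ≤ B * (m / C) * (m ^ (i - i₀ - 1) * m ^ (r - 2 - i)) := by gcongr
          _ = _ := by rw [e2]; ring
    refine (Finset.sum_le_card_nsmul _ _ _ h2).trans ?_
    rw [nsmul_eq_mul]
    have h3 : (((Icc 1 (r - 2)).erase i₀).card : ℝ) ≤ r := by
      have h4 := Finset.card_erase_le (s := Icc 1 (r - 2)) (a := i₀)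
      rw [Nat.card_Icc] at h4
      exact_mod_cast (by omega : ((Icc 1 (r - 2)).erase i₀).card ≤ r)
    gcongr
  obtain ⟨P, hP⟩ : ∃ P : ℝ, P = m ^ (r - 2 - i₀) := ⟨_, rfl⟩
  have hP0 : 0 < P := by rw [hP]; positivity
  rw [← hP] at hrest
  have hmain : |Λ * (n : ℝ) ^ (r - 2 - i₀)| = |Λ| * P := by rw [abs_mul, abs_pow, ← hm, hP]
  have h5 : |Λ| * P - r * (B * (P / C)) ≤ |Qv r a n| := by
    rw [hsum]
    have h6 := abs_sub_abs_le_abs_sub (Λ * (n : ℝ) ^ (r - 2 - i₀))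
      (-(∑ i ∈ (Icc 1 (r - 2)).erase i₀, (lamb r a i : ℝ) * (n : ℝ) ^ (r - 2 - i)))
    rw [sub_neg_eq_add, abs_neg, hmain] at h6
    linarith
  have h6 : r * (B * (P / C)) ≤ P / (2 * D) := by
    have h7 : r * (B * (P / C)) = r * B * P / C := by ring
    rw [h7, div_le_div_iff₀ (by linarith) (by positivity)]
    calc r * B * P * (2 * D) = (2 * D * (r * B)) * P := by ring
      _ ≤ C * P := by gcongr
      _ = P * C := mul_comm _ _
  have h7 : P / D ≤ |Λ| * P := by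
    rw [div_le_iff₀ (by linarith)]
    nlinarith
  have h8 : P / D - P / (2 * D) = P / (2 * D) := by field_simp; ring
  have h9 : P / (2 * D) ≤ |Qv r a n| := by linarith
  refine le_trans ?_ h9
  rw [le_div_iff₀ (by positivity)]
  have h10 : m ^ 2 ≤ P := by
    rw [hP]
    exact pow_le_pow_right₀ hm11 (by omega)
  have h11 : (h : ℝ) ^ 2 ≤ (h : ℝ) ^ (4 * r - 3) := pow_le_pow_right₀ hh1 (by omega)
  calc (h : ℝ) ^ 2 * (2 * D) ≤ (h : ℝ) ^ (4 * r - 3) * C := by gcongr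
    _ = C * (h : ℝ) ^ (4 * r - 3) := mul_comm _ _
    _ ≤ m := hn
    _ ≤ m ^ 2 := le_self_pow₀ hm11 (by norm_num)
    _ ≤ P := h10

/-- the main part if the coefficients of index at most `r - 4` vanish -/
theorem Qv_two (r : ℕ) (hr : 4 ≤ r) (a : Fin (2 * r) → ℤ) (h : ∀ i, 1 ≤ i → i + 4 ≤ r → lamb r a i = 0) (n : ℤ) :
    Qv r a n = (lamb r a (r - 3) : ℝ) * n + (lamb r a (r - 2) : ℝ) := by
  unfold Qv
  have h1 : Icc 1 (r - 2) = insert (r - 2) (insert (r - 3) (Icc 1 (r - 4))) := by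
    ext i
    rw [mem_insert, mem_insert, mem_Icc, mem_Icc]
    omega
  rw [h1, Finset.sum_insert, Finset.sum_insert]
  · have h2 : ∑ i ∈ Icc 1 (r - 4), (lamb r a i : ℝ) * (n : ℝ) ^ (r - 2 - i) = 0 := by
      refine Finset.sum_eq_zero fun i hi => ?_
      rw [mem_Icc] at hi
      rw [h i hi.1 (by omega)]
      simp
    have h3 : r - 2 - (r - 3) = 1 := by omega
    rw [h2, h3, Nat.sub_self, pow_zero, pow_one]
    ring
  · rw [mem_Icc]; omega
  · rw [mem_insert, mem_Icc]; omega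

end T9h23.Ab
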