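import Pool.Agent.T9h23.Ab.A3

/-! # Counting lemmas for the large arguments -/

set_option autoImplicit false

namespace T9h23.Ab

open Finset T9h23.Ru T9h23.Pe
open scoped Classical

theorem card_Icc_sym (H : ℕ) (hH : 1 ≤ H) : ((Icc (-(H : ℤ)) H).card : ℝ) ≤ 3 * H := by
  have hHr : (1 : ℝ) ≤ H := by exact_mod_cast hH
  rw [Int.card_Icc]
  have h4 : ((H : ℤ) + 1 - -(H : ℤ)).toNat = 2 * H + 1 := by omega
  rw [h4]
  push_cast
  linarith

/-- fibres over the first coordinate -/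
theorem fib_fst (H : ℕ) (hH : 1 ≤ H) (S : Finset (ℤ × ℤ)) (hS : S ⊆ Pe.sq H) (M : ℝ) (hM : 0 ≤ M)
    (h : ∀ p ∈ Icc (-(H : ℤ)) H, ((S.filter (fun c => c.1 = p)).card : ℝ) ≤ M) : (S.card : ℝ) ≤ 3 * H * M := by
  have h2 := Finset.card_eq_sum_card_fiberwise (f := fun c : ℤ × ℤ => c.1) (s := S) (t := Icc (-(H : ℤ)) H)
    (by
      intro c hc
      have h3 := hS hc
      rw [mem_sq] at h3
      rw [Finset.mem_coe, mem_Icc, ← abs_le]
      exact h3.1)
  have h3 : (S.card : ℝ) = ∑ p ∈ Icc (-(H : ℤ)) H, (((S.filter (fun c => c.1 = p)).card : ℕ) : ℝ) := by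
    rw [h2]; push_cast; rfl
  rw [h3]
  refine (Finset.sum_le_card_nsmul _ _ _ h).trans ?_
  rw [nsmul_eq_mul]
  have := card_Icc_sym H hH
  gcongr

/-- fibres over the second coordinate -/
theorem fib_snd (H : ℕ) (hH : 1 ≤ H) (S : Finset (ℤ × ℤ)) (hS : S ⊆ Pe.sq H) (M : ℝ) (hM : 0 ≤ M)
    (h : ∀ q ∈ Icc (-(H : ℤ)) H, ((S.filter (fun c => c.2 = q)).card : ℝ) ≤ M) : (S.card : ℝ) ≤ 3 * H * M := by
  have h2 := Finset.card_eq_sum_card_fiberwise (f := fun c : ℤ × ℤ => c.2) (s := S) (t := Icc (-(H : ℤ)) H)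
    (by
      intro c hc
      have h3 := hS hc
      rw [mem_sq] at h3
      rw [Finset.mem_coe, mem_Icc, ← abs_le]
      exact h3.2)
  have h3 : (S.card : ℝ) = ∑ p ∈ Icc (-(H : ℤ)) H, (((S.filter (fun c => c.2 = p)).card : ℕ) : ℝ) := by
    rw [h2]; push_cast; rfl
  rw [h3]
  refine (Finset.sum_le_card_nsmul _ _ _ h).trans ?_
  rw [nsmul_eq_mul]
  have := card_Icc_sym H hH
  gcongr

theorem near_lin (S : Finset ℤ) (α y t : ℝ) (hα : α ≠ 0) (ht : 0 ≤ t) (h : ∀ p ∈ S, |y + α * p| < t) :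
    (S.card : ℝ) ≤ 2 * (t / |α|) + 1 := by
  refine card_near S (-y / α) (t / |α|) (by positivity) ?_
  intro p hp
  have h1 := h p hp
  have h2 : (p : ℝ) - -y / α = (y + α * p) / α := by field_simp; ring
  rw [h2, abs_div]
  have : 0 < |α| := abs_pos.2 hα
  gcongr

/-- pairs with a small value of an affine function -/
theorem lin_count (x α β : ℝ) (hαβ : α ≠ 0 ∨ β ≠ 0) : ∃ C : ℝ, 1 ≤ C ∧ ∀ H : ℕ, 1 ≤ H → ∀ t : ℝ, 1 ≤ t →
    (((Pe.sq H).filter (fun c => |x + α * c.1 + β * c.2| < t)).card : ℝ) ≤ C * (t * H) := by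
  rcases hαβ with hα | hβ
  · have hα0 : 0 < |α| := abs_pos.2 hα
    refine ⟨3 * (2 / |α| + 1), by have : 0 < 2 / |α| := by positivity
                                  linarith, ?_⟩
    intro H hH t ht
    have h0 : 0 ≤ 2 * (t / |α|) + 1 := by positivity
    have h1 := fib_snd H hH ((Pe.sq H).filter (fun c => |x + α * c.1 + β * c.2| < t)) (filter_subset _ _)
      (2 * (t / |α|) + 1) h0 (by
        intro q _
        have hinj : Set.InjOn (fun c : ℤ × ℤ => c.1) (((Pe.sq H).filter (fun c => |x + α * c.1 + β * c.2| < t)).filter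
            (fun c => c.2 = q) : Set (ℤ × ℤ)) := by
          intro b hb c hc hbc
          rw [Finset.mem_coe, mem_filter] at hb hc
          exact Prod.ext hbc (hb.2.trans hc.2.symm)
        rw [← Finset.card_image_of_injOn hinj]
        refine near_lin _ α (x + β * q) t hα (by linarith) ?_
        intro p hp
        rw [mem_image] at hp
        obtain ⟨b, hb, rfl⟩ := hp
        rw [mem_filter, mem_filter] at hb
        have h2 := hb.1.2
        rw [hb.2] at h2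
        have h3 : x + β * q + α * (b.1 : ℝ) = x + α * b.1 + β * q := by ring
        rw [h3]
        exact h2)
    refine h1.trans ?_
    have h2 : 2 * (t / |α|) + 1 ≤ (2 / |α| + 1) * t := by
      have : 2 * (t / |α|) = 2 / |α| * t := by ring
      rw [this, add_mul]
      linarith
    calc 3 * (H : ℝ) * (2 * (t / |α|) + 1) ≤ 3 * H * ((2 / |α| + 1) * t) := by gcongr
      _ = _ := by ring
  · have hβ0 : 0 < |β| := abs_pos.2 hβ
    refine ⟨3 * (2 / |β| + 1), by have : 0 < 2 / |β| := by positivity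
                                  linarith, ?_⟩
    intro H hH t ht
    have h0 : 0 ≤ 2 * (t / |β|) + 1 := by positivity
    have h1 := fib_fst H hH ((Pe.sq H).filter (fun c => |x + α * c.1 + β * c.2| < t)) (filter_subset _ _)
      (2 * (t / |β|) + 1) h0 (by
        intro p _
        have hinj : Set.InjOn (fun c : ℤ × ℤ => c.2) (((Pe.sq H).filter (fun c => |x + α * c.1 + β * c.2| < t)).filter
            (fun c => c.1 = p) : Set (ℤ × ℤ)) := by
          intro b hb c hc hbc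
          rw [Finset.mem_coe, mem_filter] at hb hc
          exact Prod.ext (hb.2.trans hc.2.symm) hbc
        rw [← Finset.card_image_of_injOn hinj]
        refine near_lin _ β (x + α * p) t hβ (by linarith) ?_
        intro q hq
        rw [mem_image] at hq
        obtain ⟨b, hb, rfl⟩ := hq
        rw [mem_filter, mem_filter] at hb
        have h2 := hb.1.2
        rw [hb.2] at h2
        exact h2)
    refine h1.trans ?_
    have h2 : 2 * (t / |β|) + 1 ≤ (2 / |β| + 1) * t := by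
      have : 2 * (t / |β|) = 2 / |β| * t := by ring
      rw [this, add_mul]
      linarith
    calc 3 * (H : ℝ) * (2 * (t / |β|) + 1) ≤ 3 * H * ((2 / |β| + 1) * t) := by gcongr
      _ = _ := by ring

theorem half_count (h : ℕ) (S : Finset ℤ) (β : ℝ) (hS : ∀ p ∈ S, 0 ≤ (p : ℝ) + β)
    (hd : ∀ p ∈ S, ∀ p' ∈ S, ((p' : ℝ) + β) ^ 2 - ((p : ℝ) + β) ^ 2 < 9 * (h : ℝ) ^ 2) : S.card ≤ 3 * h := by
  rcases Finset.eq_empty_or_nonempty S with he | hne
  · rw [he, card_empty]; omega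
  · have h1 : S ⊆ Ico (S.min' hne) (S.min' hne + 3 * h) := by
      intro p hp
      have h2 := S.min'_le p hp
      have h3 := S.min'_mem hne
      rw [mem_Ico]
      refine ⟨h2, ?_⟩
      have h4 := hd _ h3 p hp
      have h5 := hS _ h3
      obtain ⟨m, hm⟩ : ∃ m : ℤ, m = S.min' hne := ⟨_, rfl⟩
      rw [← hm] at h2 h4 h5 ⊢
      have h6 : (m : ℝ) ≤ p := by exact_mod_cast h2
      have h7 : ((p : ℝ) - m) ^ 2 < (3 * (h : ℝ)) ^ 2 := by nlinarith
      have h8 : (p : ℝ) - m < 3 * h := by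
        apply lt_of_pow_lt_pow_left₀ 2 (by positivity) h7
      have h9 : (p : ℝ) < ((m + 3 * h : ℤ) : ℝ) := by push_cast; linarith
      exact_mod_cast h9
    have h2 := Finset.card_le_card h1
    rw [Int.card_Ico] at h2
    omega

/-- integers with a small value of a quadratic polynomial -/
theorem quad_count (h : ℕ) (S : Finset ℤ) (α x : ℝ) (hS : ∀ p ∈ S, |x + α * p + 3 / 8 * (p : ℝ) ^ 2| < (h : ℝ) ^ 2) :
    S.card ≤ 6 * h := by
  obtain ⟨β, hβ⟩ : ∃ β : ℝ, β = 4 / 3 * α := ⟨_, rfl⟩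
  have key : ∀ p ∈ S, ∀ p' ∈ S, ((p' : ℝ) + β) ^ 2 - ((p : ℝ) + β) ^ 2 < 9 * (h : ℝ) ^ 2 := by
    intro p hp p' hp'
    obtain ⟨h1, h2⟩ := abs_lt.1 (hS p hp)
    obtain ⟨h3, h4⟩ := abs_lt.1 (hS p' hp')
    have e1 : ((p' : ℝ) + β) ^ 2 - ((p : ℝ) + β) ^ 2 =
        8 / 3 * ((x + α * p' + 3 / 8 * (p' : ℝ) ^ 2) - (x + α * p + 3 / 8 * (p : ℝ) ^ 2)) := by
      rw [hβ]; ring
    rw [e1]
    nlinarith [sq_nonneg (h : ℝ)]
  have h1 : S.card = (S.filter (fun p : ℤ => 0 ≤ (p : ℝ) + β)).card + (S.filter (fun p : ℤ => ¬ 0 ≤ (p : ℝ) + β)).card :=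
    (Finset.card_filter_add_card_filter_not _).symm
  have h2 := half_count h (S.filter (fun p : ℤ => 0 ≤ (p : ℝ) + β)) β (fun p hp => (mem_filter.1 hp).2)
    (fun p hp p' hp' => key p (mem_filter.1 hp).1 p' (mem_filter.1 hp').1)
  have h3 : (S.filter (fun p : ℤ => ¬ 0 ≤ (p : ℝ) + β)).card ≤ 3 * h := by
    have h4 := half_count h ((S.filter (fun p : ℤ => ¬ 0 ≤ (p : ℝ) + β)).image (fun p : ℤ => -p)) (-β) (by
      intro p hp
      rw [mem_image] at hp
      obtain ⟨b, hb, rfl⟩ := hp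
      have := (mem_filter.1 hb).2
      push_cast
      linarith) (by
      intro p hp p' hp'
      rw [mem_image] at hp hp'
      obtain ⟨b, hb, rfl⟩ := hp
      obtain ⟨b', hb', rfl⟩ := hp'
      have := key b (mem_filter.1 hb).1 b' (mem_filter.1 hb').1
      push_cast
      have e1 : (-(b' : ℝ) + -β) ^ 2 - (-(b : ℝ) + -β) ^ 2 = ((b' : ℝ) + β) ^ 2 - ((b : ℝ) + β) ^ 2 := by ring
      rw [e1]
      exact this)
    rwa [Finset.card_image_of_injective _ neg_injective] at h4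
  omega

/-- exceptional values in a short interval far out -/
theorem win_q (r : ℕ) (hr : 4 ≤ r) (g : Fin (2 * r) → ℤ) (A : ℕ) : ∃ C₃ C₄ : ℝ, 1 ≤ C₃ ∧ 1 ≤ C₄ ∧
    ∀ H k : ℕ, 1 ≤ H → 1 ≤ k → H ≤ (2 * k) ^ (2 * r - 1) → ∀ n p : ℤ, C₃ * (k : ℝ) ^ (4 * r - 3) ≤ |(n : ℝ)| →
      |p| ≤ H → (((Icc (-(H : ℤ)) H).filter (fun q => Exc A (mv g n + (p * n + q)))).card : ℝ) ≤ C₄ := by
  obtain ⟨C, hC, hloc⟩ := local_count A
  set G : ℝ := (gs g : ℝ) with hG
  have hG1 : 1 ≤ G := by rw [hG]; exact_mod_cast gs_pos g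
  have h2r : (1 : ℝ) ≤ 2 ^ (2 * r - 1) := one_le_pow₀ (by norm_num)
  refine ⟨2 * 2 ^ (2 * r - 1) + 2 * G, 2 * C + 1, by linarith, by linarith, ?_⟩
  intro H k hH hk hHk n p hn hp
  have hHr : (1 : ℝ) ≤ H := by exact_mod_cast hH
  have hkr : (1 : ℝ) ≤ k := by exact_mod_cast hk
  have hpr : |(p : ℝ)| ≤ H := by exact_mod_cast hp
  obtain ⟨m, hm⟩ : ∃ m : ℝ, m = |(n : ℝ)| := ⟨_, rfl⟩
  rw [← hm] at hn
  have hk1 : (1 : ℝ) ≤ (k : ℝ) ^ (4 * r - 3) := one_le_pow₀ hkr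
  have hmG : 2 * G ≤ m := by
    refine le_trans ?_ hn
    nlinarith
  have hmH : 2 * (H : ℝ) ≤ m := by
    refine le_trans ?_ hn
    have h1 : (H : ℝ) ≤ (2 * k) ^ (2 * r - 1) := by exact_mod_cast hHk
    have h2 : (k : ℝ) ^ (2 * r - 1) ≤ (k : ℝ) ^ (4 * r - 3) := pow_le_pow_right₀ hkr (by omega)
    rw [mul_pow] at h1
    calc 2 * (H : ℝ) ≤ 2 * (2 ^ (2 * r - 1) * (k : ℝ) ^ (2 * r - 1)) := by linarith
      _ ≤ 2 * (2 ^ (2 * r - 1) * (k : ℝ) ^ (4 * r - 3)) := by gcongr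
      _ ≤ _ := by nlinarith
  have hm2 : 2 ≤ m := by linarith
  have hlow : m ^ (2 * r) ≤ 2 * (mv g n : ℝ) := by
    have hnG : 2 * gs g ≤ |n| := by
      have : 2 * (gs g : ℝ) ≤ |(n : ℝ)| := by rw [← hm]; exact hmG
      exact_mod_cast this
    rw [hm]
    exact_mod_cast mv_pos (by omega) ⟨r, by ring⟩ g n hnG
  have hm8 : 16 * m ^ 4 ≤ m ^ (2 * r) := by
    have h1 : m ^ 8 ≤ m ^ (2 * r) := pow_le_pow_right₀ (by linarith) (by omega)
    have h2 : (2 : ℝ) ^ 4 ≤ m ^ 4 := by gcongr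
    have h3 : m ^ 8 = m ^ 4 * m ^ 4 := by ring
    have h4 : 0 ≤ m ^ 4 := by positivity
    nlinarith
  have hm24 : m ^ 2 ≤ m ^ 4 := pow_le_pow_right₀ (by linarith) (by norm_num)
  have hpn : |(p : ℝ) * n| ≤ H * m := by
    rw [abs_mul, ← hm]
    gcongr
  obtain ⟨hp1, hp2⟩ := abs_le.1 hpn
  obtain ⟨W, hW⟩ : ∃ W : ℝ, W = (mv g n : ℝ) + p * n - H := ⟨_, rfl⟩
  have hWm : m ^ 4 ≤ W := by
    rw [hW]
    nlinarith
  have hWH : (H : ℝ) ^ 4 ≤ W := by
    refine le_trans ?_ hWm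
    gcongr
    linarith
  have hW1 : 1 ≤ W := le_trans (one_le_pow₀ hHr) hWH
  have h1 := hloc W (2 * H) hW1 (by positivity)
    (((Icc (-(H : ℤ)) H).filter (fun q => Exc A (mv g n + (p * n + q)))).image (fun q => mv g n + (p * n + q))) (by
      intro w hw
      rw [mem_image] at hw
      obtain ⟨q, hq, rfl⟩ := hw
      rw [mem_filter, mem_Icc] at hq
      have hq1 : (-(H : ℝ)) ≤ q := by exact_mod_cast hq.1.1
      have hq2 : (q : ℝ) ≤ H := by exact_mod_cast hq.1.2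
      push_cast
      rw [hW]
      refine ⟨by linarith, by linarith, hq.2⟩)
  rw [Finset.card_image_of_injective _ (by
    intro a b hab
    have : mv g n + (p * n + a) = mv g n + (p * n + b) := hab
    linarith)] at h1
  refine h1.trans ?_
  have h2 : (H : ℝ) ≤ W ^ (1 / 4 : ℝ) := by
    calc (H : ℝ) = ((H : ℝ) ^ 4) ^ (1 / 4 : ℝ) := by
          rw [← Real.rpow_natCast (H : ℝ) 4, ← Real.rpow_mul (by positivity)]
          norm_num
      _ ≤ _ := Real.rpow_le_rpow (by positivity) hWH (by norm_num)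
  have h3 : 2 * (H : ℝ) / W ^ (1 / 4 : ℝ) ≤ 2 := by
    rw [div_le_iff₀ (by positivity)]
    linarith
  nlinarith

end T9h23.Ab
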