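import Pool.Agent.T9h23.Ab.A6
import Pool.Agent.T9h23.Ab.A7

/-! # The pairs with an exceptional value at a large argument -/

set_option autoImplicit false

namespace T9h23.Ab

open Finset T9h23.Ru T9h23.Pe
open scoped Classical

/-- the pairs with an exceptional value at an argument of size at least `X` -/
noncomputable def bad (A r : ℕ) (g : Fin (2 * r) → ℤ) (H : ℕ) (X : ℝ) : Finset (ℤ × ℤ) :=
  (Pe.sq H).filter (fun c => ∃ n : ℤ, X ≤ |(n : ℝ)| ∧ Exc A (mv g n + (c.1 * n + c.2)))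

theorem mem_bad {A r : ℕ} {g : Fin (2 * r) → ℤ} {H : ℕ} {X : ℝ} {c : ℤ × ℤ} : c ∈ bad A r g H X ↔
    c ∈ Pe.sq H ∧ ∃ n : ℤ, X ≤ |(n : ℝ)| ∧ Exc A (mv g n + (c.1 * n + c.2)) := by
  unfold bad
  rw [mem_filter]

/-- the facts about the exceptional pairs used in each case -/
structure Fact (A r : ℕ) (g : Fin (2 * r) → ℤ) (B : ℕ) (C : ℝ) : Prop where
  /-- the box -/
  box : ∀ H k : ℕ, 1 ≤ H → 1 ≤ k → H ≤ (2 * k) ^ (2 * r - 1) → ∀ c ∈ Pe.sq H, InBox (B * k) (pert g c.1 c.2)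
  /-- the main part is small at an exceptional value -/
  small : ∀ h : ℕ, 1 ≤ h → ∀ a : Fin (2 * r) → ℤ, InBox h a → ∀ n : ℤ, C * (h : ℝ) ^ (4 * r - 3) ≤ |(n : ℝ)| →
    Exc A (mv a n) → |Qv r a n| < (h : ℝ) ^ 2
  /-- the first case -/
  first : ∀ h : ℕ, 1 ≤ h → ∀ a : Fin (2 * r) → ℤ, InBox h a → ∀ n : ℤ, C * (h : ℝ) ^ (4 * r - 3) ≤ |(n : ℝ)| →
    ∀ i₀ : ℕ, 1 ≤ i₀ → i₀ + 4 ≤ r → (∀ i, 1 ≤ i → i < i₀ → lamb r a i = 0) → lamb r a i₀ ≠ 0 →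
    (h : ℝ) ^ 2 ≤ |Qv r a n|
  /-- the last coefficient -/
  last : ∀ h : ℕ, ∀ a : Fin (2 * r) → ℤ, InBox h a → |(lamb r a (r - 2) : ℝ)| ≤ (C - 1) * (h : ℝ) ^ (4 * r - 2)

theorem fact (r : ℕ) (hr : 4 ≤ r) (g : Fin (2 * r) → ℤ) (A : ℕ) : ∃ B : ℕ, 1 ≤ B ∧ ∃ C : ℝ, 1 ≤ C ∧
    ∀ C' : ℝ, C ≤ C' → Fact A r g B C' := by
  obtain ⟨B, hB, hbox⟩ := boxB (d := 2 * r) (by omega) g
  obtain ⟨c₁, hc₁, h₁⟩ := condQ r hr A
  obtain ⟨c₂, hc₂, h₂⟩ := caseA r hr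
  obtain ⟨c₃, hc₃, h₃⟩ := lamb_le r (by omega)
  refine ⟨B, hB, c₁ + c₂ + c₃ + 1, by linarith, ?_⟩
  intro C' hC'
  refine ⟨hbox, ?_, ?_, ?_⟩
  · intro h hh a ha n hn hE
    by_contra hcon
    exact h₁ C' (by linarith) h hh a ha n hn (not_lt.1 hcon) hE
  · intro h hh a ha n hn
    exact h₂ C' (by linarith) h hh a ha n hn
  · intro h a ha
    refine (h₃ h a ha (r - 2) le_rfl).trans ?_
    have e1 : 3 * r + (r - 2) = 4 * r - 2 := by omega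
    rw [e1]
    gcongr
    linarith

/-- the bounds for the number of pairs -/
theorem size_facts (r : ℕ) (hr : 4 ≤ r) (H k : ℕ) (hH : 1 ≤ H) (hk : 1 ≤ k) (hkH : k ^ (2 * r - 1) ≤ H) :
    (k : ℝ) ^ 2 * H ≤ (H : ℝ) ^ 2 / k ∧ (k : ℝ) * H ≤ (H : ℝ) ^ 2 / k ∧ (H : ℝ) ≤ (H : ℝ) ^ 2 / k := by
  have hHr : (1 : ℝ) ≤ H := by exact_mod_cast hH
  have hkr : (1 : ℝ) ≤ k := by exact_mod_cast hk
  have h3 : (k : ℝ) ^ 3 ≤ H := by
    have h4 : k ^ 3 ≤ k ^ (2 * r - 1) := Nat.pow_le_pow_right hk (by omega)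
    exact_mod_cast h4.trans hkH
  have h1 : (k : ℝ) ^ 2 * H ≤ (H : ℝ) ^ 2 / k := by
    rw [le_div_iff₀ (by linarith)]
    calc (k : ℝ) ^ 2 * (H : ℝ) * (k : ℝ) = (k : ℝ) ^ 3 * (H : ℝ) := by ring
      _ ≤ (H : ℝ) * (H : ℝ) := by gcongr
      _ = (H : ℝ) ^ 2 := by ring
  have h2 : (k : ℝ) * H ≤ (k : ℝ) ^ 2 * H := by
    have : (k : ℝ) ≤ k ^ 2 := le_self_pow₀ hkr (by norm_num)
    gcongr
  have h5 : (H : ℝ) ≤ k * H := by nlinarith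
  exact ⟨h1, h2.trans h1, h5.trans (h2.trans h1)⟩

/-- **First case**: some coefficient of index at most `r - 4` is not identically zero. -/
theorem large_A (r : ℕ) (hr : 4 ≤ r) (g : Fin (2 * r) → ℤ) (A B : ℕ) (hB : 1 ≤ B) (C : ℝ) (hF : Fact A r g B C)
    (i₀ : ℕ) (hi1 : 1 ≤ i₀) (hi4 : i₀ + 4 ≤ r)
    (hz : ∀ i, 1 ≤ i → i < i₀ → lamb r g i = 0 ∧ al r g i = 0 ∧ be r g i = 0)
    (hne : ¬ (lamb r g i₀ = 0 ∧ al r g i₀ = 0 ∧ be r g i₀ = 0)) :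
    ∃ C₂ : ℝ, 1 ≤ C₂ ∧ ∀ H k : ℕ, 1 ≤ H → 1 ≤ k → k ^ (2 * r - 1) ≤ H → H ≤ (2 * k) ^ (2 * r - 1) →
      ((bad A r g H (C * ((B * k : ℕ) : ℝ) ^ (4 * r - 3))).card : ℝ) ≤ C₂ * ((H : ℝ) ^ 2 / k) := by
  have key : ∀ H k : ℕ, 1 ≤ H → 1 ≤ k → H ≤ (2 * k) ^ (2 * r - 1) →
      ∀ c ∈ bad A r g H (C * ((B * k : ℕ) : ℝ) ^ (4 * r - 3)),
      lamb r g i₀ + c.1 * al r g i₀ + c.2 * be r g i₀ = 0 := by
    intro H k hH hk hHk c hc
    rw [mem_bad] at hc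
    obtain ⟨hc, n, hn, hE⟩ := hc
    have hh1 : 1 ≤ B * k := Nat.one_le_iff_ne_zero.2 (by positivity)
    have hbox := hF.box H k hH hk hHk c hc
    rw [← mv_pert (by omega)] at hE
    have hsm := hF.small (B * k) hh1 _ hbox n hn hE
    by_contra hcon
    have h1 := hF.first (B * k) hh1 _ hbox n hn i₀ hi1 hi4 (by
      intro i hi hi'
      obtain ⟨z1, z2, z3⟩ := hz i hi hi'
      rw [lamb_pert r (by omega) g c.1 c.2 i (by omega), if_neg (by omega), z1, z2, z3]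
      ring) (by
      rw [lamb_pert r (by omega) g c.1 c.2 i₀ (by omega), if_neg (by omega), add_zero]
      exact hcon)
    linarith
  by_cases hab : al r g i₀ = 0 ∧ be r g i₀ = 0
  · refine ⟨1, le_rfl, ?_⟩
    intro H k hH hk hkH hHk
    have he : bad A r g H (C * ((B * k : ℕ) : ℝ) ^ (4 * r - 3)) = ∅ := by
      rw [Finset.eq_empty_iff_forall_notMem]
      intro c hc
      have h1 := key H k hH hk hHk c hc
      rw [hab.1, hab.2, mul_zero, mul_zero, add_zero, add_zero] at h1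
      exact hne ⟨h1, hab.1, hab.2⟩
    rw [he, card_empty, Nat.cast_zero]
    positivity
  · have hab' : (al r g i₀ : ℝ) ≠ 0 ∨ (be r g i₀ : ℝ) ≠ 0 := by
      by_contra hcon
      push Not at hcon
      exact hab ⟨by exact_mod_cast hcon.1, by exact_mod_cast hcon.2⟩
    obtain ⟨C', hC', hlin⟩ := lin_count (lamb r g i₀ : ℝ) (al r g i₀ : ℝ) (be r g i₀ : ℝ) hab'
    refine ⟨C', hC', ?_⟩
    intro H k hH hk hkH hHk
    obtain ⟨_, _, f3⟩ := size_facts r hr H k hH hk hkH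
    have h1 : bad A r g H (C * ((B * k : ℕ) : ℝ) ^ (4 * r - 3)) ⊆ (Pe.sq H).filter
        (fun c => |(lamb r g i₀ : ℝ) + (al r g i₀ : ℝ) * c.1 + (be r g i₀ : ℝ) * c.2| < 1) := by
      intro c hc
      rw [mem_filter]
      refine ⟨(mem_bad.1 hc).1, ?_⟩
      have h2 := key H k hH hk hHk c hc
      have h3 : (lamb r g i₀ : ℝ) + (al r g i₀ : ℝ) * c.1 + (be r g i₀ : ℝ) * c.2 = 0 := by
        have h4 : ((lamb r g i₀ + c.1 * al r g i₀ + c.2 * be r g i₀ : ℚ) : ℝ) = 0 := by rw [h2]; norm_num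
        push_cast at h4
        linarith
      rw [h3, abs_zero]
      exact one_pos
    have h2 := hlin H hH 1 le_rfl
    calc ((bad A r g H (C * ((B * k : ℕ) : ℝ) ^ (4 * r - 3))).card : ℝ) ≤ _ := by
          exact_mod_cast Finset.card_le_card h1
      _ ≤ C' * (1 * H) := h2
      _ ≤ C' * ((H : ℝ) ^ 2 / k) := by
          rw [one_mul]
          gcongr

/-- the main part in the other cases -/
theorem Qv_pert (r : ℕ) (hr : 4 ≤ r) (g : Fin (2 * r) → ℤ)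
    (hz : ∀ i, 1 ≤ i → i + 4 ≤ r → lamb r g i = 0 ∧ al r g i = 0 ∧ be r g i = 0) (p q n : ℤ) :
    Qv r (pert g p q) n = ((lamb r g (r - 3) : ℝ) + (al r g (r - 3) : ℝ) * p + (be r g (r - 3) : ℝ) * q) * n +
      (lamb r (pert g p q) (r - 2) : ℝ) ∧
    (lamb r (pert g p q) (r - 2) : ℝ) = (lamb r g (r - 2) : ℝ) + (al r g (r - 2) : ℝ) * p +
      (al r g (r - 3) : ℝ) * q + 3 / 8 * (p : ℝ) ^ 2 := by
  constructor
  · rw [Qv_two r hr _ (by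
      intro i hi hi'
      obtain ⟨z1, z2, z3⟩ := hz i hi hi'
      rw [lamb_pert r (by omega) g p q i (by omega), if_neg (by omega), z1, z2, z3]
      ring) n]
    congr 2
    rw [lamb_pert r (by omega) g p q (r - 3) (by omega), if_neg (by omega)]
    push_cast
    ring
  · rw [lamb_pert r (by omega) g p q (r - 2) le_rfl, if_pos rfl]
    have h1 : be r g (r - 2) = al r g (r - 3) := by
      rw [← be_succ]
      congr 1
      omega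
    rw [h1]
    push_cast
    ring

/-- **Second case.** -/
theorem large_B1 (r : ℕ) (hr : 4 ≤ r) (g : Fin (2 * r) → ℤ) (A B : ℕ) (hB : 1 ≤ B) (C : ℝ) (hF : Fact A r g B C)
    (hC : 1 ≤ C)
    (hz : ∀ i, 1 ≤ i → i + 4 ≤ r → lamb r g i = 0 ∧ al r g i = 0 ∧ be r g i = 0)
    (hne : ¬ (al r g (r - 3) = 0 ∧ be r g (r - 3) = 0)) :
    ∃ C₂ : ℝ, 1 ≤ C₂ ∧ ∀ H k : ℕ, 1 ≤ H → 1 ≤ k → k ^ (2 * r - 1) ≤ H → H ≤ (2 * k) ^ (2 * r - 1) →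
      ((bad A r g H (C * ((B * k : ℕ) : ℝ) ^ (4 * r - 3))).card : ℝ) ≤ C₂ * ((H : ℝ) ^ 2 / k) := by
  have hab' : (al r g (r - 3) : ℝ) ≠ 0 ∨ (be r g (r - 3) : ℝ) ≠ 0 := by
    by_contra hcon
    push Not at hcon
    exact hne ⟨by exact_mod_cast hcon.1, by exact_mod_cast hcon.2⟩
  obtain ⟨C', hC', hlin⟩ := lin_count (lamb r g (r - 3) : ℝ) (al r g (r - 3) : ℝ) (be r g (r - 3) : ℝ) hab'
  have hBr : (1 : ℝ) ≤ B := by exact_mod_cast hB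
  refine ⟨C' * B, by nlinarith, ?_⟩
  intro H k hH hk hkH hHk
  obtain ⟨_, f2, _⟩ := size_facts r hr H k hH hk hkH
  have hh1 : 1 ≤ B * k := Nat.one_le_iff_ne_zero.2 (by positivity)
  obtain ⟨h, hh⟩ : ∃ h : ℕ, h = B * k := ⟨_, rfl⟩
  have hhr : (h : ℝ) = B * k := by rw [hh]; push_cast; ring
  have hh1r : (1 : ℝ) ≤ h := by rw [hh]; exact_mod_cast hh1
  have h1 : bad A r g H (C * ((B * k : ℕ) : ℝ) ^ (4 * r - 3)) ⊆ (Pe.sq H).filter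
      (fun c => |(lamb r g (r - 3) : ℝ) + (al r g (r - 3) : ℝ) * c.1 + (be r g (r - 3) : ℝ) * c.2| < h) := by
    intro c hc
    rw [mem_bad] at hc
    obtain ⟨hc, n, hn, hE⟩ := hc
    rw [mem_filter]
    refine ⟨hc, ?_⟩
    by_contra hcon
    rw [not_lt] at hcon
    have hbox := hF.box H k hH hk hHk c hc
    rw [← mv_pert (by omega)] at hE
    have hsm := hF.small (B * k) hh1 _ hbox n hn hE
    have hla := hF.last (B * k) _ hbox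
    rw [(Qv_pert r hr g hz c.1 c.2 n).1] at hsm
    rw [← hh] at hsm hla hn
    obtain ⟨Λ, hΛ⟩ : ∃ Λ : ℝ, Λ = (lamb r g (r - 3) : ℝ) + (al r g (r - 3) : ℝ) * c.1 + (be r g (r - 3) : ℝ) * c.2 :=
      ⟨_, rfl⟩
    rw [← hΛ] at hsm hcon
    obtain ⟨M, hM⟩ : ∃ M : ℝ, M = (lamb r (pert g c.1 c.2) (r - 2) : ℝ) := ⟨_, rfl⟩
    rw [← hM] at hsm hla
    have h2 : |Λ * n| ≤ |Λ * n + M| + |M| := by
      have h3 := abs_sub (Λ * n + M) M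
      rwa [add_sub_cancel_right] at h3
    have h3 : C * (h : ℝ) ^ (4 * r - 2) ≤ |Λ * n| := by
      rw [abs_mul]
      have e1 : (h : ℝ) ^ (4 * r - 2) = h * (h : ℝ) ^ (4 * r - 3) := by
        rw [← pow_succ']; congr 1; omega
      rw [e1]
      calc C * (h * (h : ℝ) ^ (4 * r - 3)) = h * (C * (h : ℝ) ^ (4 * r - 3)) := by ring
        _ ≤ |Λ| * |(n : ℝ)| := by gcongr
    have h4 : (h : ℝ) ^ 2 ≤ (h : ℝ) ^ (4 * r - 2) := pow_le_pow_right₀ hh1r (by omega)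
    nlinarith
  have h2 := hlin H hH h hh1r
  calc ((bad A r g H (C * ((B * k : ℕ) : ℝ) ^ (4 * r - 3))).card : ℝ) ≤ _ := by
        exact_mod_cast Finset.card_le_card h1
    _ ≤ C' * (h * H) := h2
    _ = C' * B * (k * H) := by rw [hhr]; ring
    _ ≤ C' * B * ((H : ℝ) ^ 2 / k) := by gcongr

/-- **Third case.** -/
theorem large_C (r : ℕ) (hr : 4 ≤ r) (g : Fin (2 * r) → ℤ) (A B : ℕ) (hB : 1 ≤ B) (C : ℝ) (hF : Fact A r g B C)
    (hz : ∀ i, 1 ≤ i → i + 4 ≤ r → lamb r g i = 0 ∧ al r g i = 0 ∧ be r g i = 0)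
    (hz3 : lamb r g (r - 3) = 0 ∧ al r g (r - 3) = 0 ∧ be r g (r - 3) = 0) :
    ∃ C₂ : ℝ, 1 ≤ C₂ ∧ ∀ H k : ℕ, 1 ≤ H → 1 ≤ k → k ^ (2 * r - 1) ≤ H → H ≤ (2 * k) ^ (2 * r - 1) →
      ((bad A r g H (C * ((B * k : ℕ) : ℝ) ^ (4 * r - 3))).card : ℝ) ≤ C₂ * ((H : ℝ) ^ 2 / k) := by
  have hBr : (1 : ℝ) ≤ B := by exact_mod_cast hB
  refine ⟨18 * B, by linarith, ?_⟩
  intro H k hH hk hkH hHk
  obtain ⟨_, f2, _⟩ := size_facts r hr H k hH hk hkH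
  have hh1 : 1 ≤ B * k := Nat.one_le_iff_ne_zero.2 (by positivity)
  obtain ⟨h, hh⟩ : ∃ h : ℕ, h = B * k := ⟨_, rfl⟩
  have hhr : (h : ℝ) = B * k := by rw [hh]; push_cast; ring
  set S : Finset ℤ := (Icc (-(H : ℤ)) H).filter
    (fun p : ℤ => |(lamb r g (r - 2) : ℝ) + (al r g (r - 2) : ℝ) * p + 3 / 8 * (p : ℝ) ^ 2| < (h : ℝ) ^ 2) with hS
  have hScard : S.card ≤ 6 * h := quad_count h S (al r g (r - 2) : ℝ) (lamb r g (r - 2) : ℝ)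
    (fun p hp => (mem_filter.1 hp).2)
  have h1 : bad A r g H (C * ((B * k : ℕ) : ℝ) ^ (4 * r - 3)) ⊆ S ×ˢ Icc (-(H : ℤ)) H := by
    intro c hc
    rw [mem_bad] at hc
    obtain ⟨hc, n, hn, hE⟩ := hc
    have hbox := hF.box H k hH hk hHk c hc
    rw [← mv_pert (by omega)] at hE
    have hsm := hF.small (B * k) hh1 _ hbox n hn hE
    obtain ⟨e1, e2⟩ := Qv_pert r hr g hz c.1 c.2 n
    rw [e1, e2, hz3.1, hz3.2.1, hz3.2.2, ← hh] at hsm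
    rw [mem_product, hS, mem_filter]
    have hcm := mem_sq.1 hc
    refine ⟨⟨?_, ?_⟩, ?_⟩
    · rw [mem_Icc, ← abs_le]; exact hcm.1
    · have e3 : ((0 : ℚ) : ℝ) + ((0 : ℚ) : ℝ) * c.1 + ((0 : ℚ) : ℝ) * c.2 = 0 := by push_cast; ring
      rw [e3, zero_mul, zero_add] at hsm
      have e4 : (lamb r g (r - 2) : ℝ) + (al r g (r - 2) : ℝ) * c.1 + ((0 : ℚ) : ℝ) * c.2 + 3 / 8 * (c.1 : ℝ) ^ 2 =
        (lamb r g (r - 2) : ℝ) + (al r g (r - 2) : ℝ) * c.1 + 3 / 8 * (c.1 : ℝ) ^ 2 := by push_cast; ring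
      rwa [e4] at hsm
    · rw [mem_Icc, ← abs_le]; exact hcm.2
  have h2 := Finset.card_le_card h1
  rw [card_product] at h2
  have h3 : ((bad A r g H (C * ((B * k : ℕ) : ℝ) ^ (4 * r - 3))).card : ℝ) ≤ (S.card : ℝ) *
      ((Icc (-(H : ℤ)) H).card : ℝ) := by exact_mod_cast h2
  refine h3.trans ?_
  have h4 : (S.card : ℝ) ≤ 6 * h := by exact_mod_cast hScard
  have h5 := card_Icc_sym H hH
  calc (S.card : ℝ) * ((Icc (-(H : ℤ)) H).card : ℝ) ≤ (6 * h) * (3 * H) := by gcongr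
    _ = 18 * B * (k * H) := by rw [hhr]; ring
    _ ≤ _ := by gcongr

/-- **Fourth case.** -/
theorem large_B2 (r : ℕ) (hr : 4 ≤ r) (g : Fin (2 * r) → ℤ) (A B : ℕ) (hB : 1 ≤ B) (C C₃ C₄ : ℝ)
    (hF : Fact A r g B C) (hC3 : C₃ ≤ C) (h3 : 1 ≤ C₃) (h4 : 1 ≤ C₄)
    (hwin : ∀ H k : ℕ, 1 ≤ H → 1 ≤ k → H ≤ (2 * k) ^ (2 * r - 1) → ∀ n p : ℤ, C₃ * (k : ℝ) ^ (4 * r - 3) ≤ |(n : ℝ)| →
      |p| ≤ H → (((Icc (-(H : ℤ)) H).filter (fun q => Exc A (mv g n + (p * n + q)))).card : ℝ) ≤ C₄)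
    (hz : ∀ i, 1 ≤ i → i + 4 ≤ r → lamb r g i = 0 ∧ al r g i = 0 ∧ be r g i = 0)
    (hz3 : lamb r g (r - 3) ≠ 0 ∧ al r g (r - 3) = 0 ∧ be r g (r - 3) = 0) :
    ∃ C₂ : ℝ, 1 ≤ C₂ ∧ ∀ H k : ℕ, 1 ≤ H → 1 ≤ k → k ^ (2 * r - 1) ≤ H → H ≤ (2 * k) ^ (2 * r - 1) →
      ((bad A r g H (C * ((B * k : ℕ) : ℝ) ^ (4 * r - 3))).card : ℝ) ≤ C₂ * ((H : ℝ) ^ 2 / k) := by
  have hBr : (1 : ℝ) ≤ B := by exact_mod_cast hB
  obtain ⟨c₀, hc₀⟩ : ∃ c₀ : ℝ, c₀ = (lamb r g (r - 3) : ℝ) := ⟨_, rfl⟩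
  have hc0 : c₀ ≠ 0 := by
    rw [hc₀]
    exact_mod_cast hz3.1
  have hc0' : 0 < |c₀| := abs_pos.2 hc0
  have hK0 : 0 ≤ 2 * ((B : ℝ) ^ 2 / |c₀|) := by positivity
  refine ⟨3 * ((2 * ((B : ℝ) ^ 2 / |c₀|) + 1) * C₄), by nlinarith, ?_⟩
  intro H k hH hk hkH hHk
  obtain ⟨f1, _, _⟩ := size_facts r hr H k hH hk hkH
  have hkr : (1 : ℝ) ≤ k := by exact_mod_cast hk
  have hh1 : 1 ≤ B * k := Nat.one_le_iff_ne_zero.2 (by positivity)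
  obtain ⟨h, hh⟩ : ∃ h : ℕ, h = B * k := ⟨_, rfl⟩
  have hhr : (h : ℝ) = B * k := by rw [hh]; push_cast; ring
  rw [← hh]
  have hC3k : C₃ * (k : ℝ) ^ (4 * r - 3) ≤ C * (h : ℝ) ^ (4 * r - 3) := by
    have : (k : ℝ) ≤ h := by rw [hhr]; nlinarith
    gcongr
    linarith
  have hfib := fib_fst H hH (bad A r g H (C * (h : ℝ) ^ (4 * r - 3))) (by unfold bad; exact filter_subset _ _)
    ((2 * ((h : ℝ) ^ 2 / |c₀|) + 1) * C₄) (by positivity) (by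
      intro p hp
      obtain ⟨Λ, hΛ⟩ : ∃ Λ : ℝ, Λ = (lamb r g (r - 2) : ℝ) + (al r g (r - 2) : ℝ) * p + 3 / 8 * (p : ℝ) ^ 2 :=
        ⟨_, rfl⟩
      obtain ⟨M, hM⟩ : ∃ M : ℕ, M = ⌈(|Λ| + (h : ℝ) ^ 2) / |c₀|⌉₊ := ⟨_, rfl⟩
      set N : Finset ℤ := (Icc (-(M : ℤ)) M).filter
        (fun n : ℤ => |c₀ * n + Λ| < (h : ℝ) ^ 2 ∧ C * (h : ℝ) ^ (4 * r - 3) ≤ |(n : ℝ)|) with hN
      have hNc : (N.card : ℝ) ≤ 2 * ((h : ℝ) ^ 2 / |c₀|) + 1 := by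
        refine near_lin N c₀ Λ ((h : ℝ) ^ 2) hc0 (by positivity) ?_
        intro n hn
        rw [hN, mem_filter] at hn
        rw [add_comm]
        exact hn.2.1
      have hsub : (((bad A r g H (C * (h : ℝ) ^ (4 * r - 3))).filter (fun c => c.1 = p)).image (fun c => c.2)) ⊆
          N.biUnion (fun n => (Icc (-(H : ℤ)) H).filter (fun q => Exc A (mv g n + (p * n + q)))) := by
        intro q hq
        rw [mem_image] at hq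
        obtain ⟨c, hc, rfl⟩ := hq
        rw [mem_filter, mem_bad] at hc
        obtain ⟨⟨hc, n, hn, hE⟩, rfl⟩ := hc
        have hE0 := hE
        have hcm := mem_sq.1 hc
        have hbox := hF.box H k hH hk hHk c hc
        rw [← mv_pert (by omega)] at hE
        have hsm := hF.small (B * k) hh1 _ hbox n (by rw [← hh]; exact hn) hE
        obtain ⟨e1, e2⟩ := Qv_pert r hr g hz c.1 c.2 n
        rw [e1, e2, hz3.2.1, hz3.2.2, ← hh, ← hc₀] at hsm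
        have e3 : (c₀ + ((0 : ℚ) : ℝ) * c.1 + ((0 : ℚ) : ℝ) * c.2) * n +
            ((lamb r g (r - 2) : ℝ) + (al r g (r - 2) : ℝ) * c.1 + ((0 : ℚ) : ℝ) * c.2 + 3 / 8 * (c.1 : ℝ) ^ 2) =
            c₀ * n + Λ := by
          rw [hΛ]; push_cast; ring
        rw [e3] at hsm
        rw [mem_biUnion]
        refine ⟨n, ?_, ?_⟩
        · rw [hN, mem_filter]
          refine ⟨?_, hsm, hn⟩
          rw [mem_Icc, ← abs_le]
          have h5 : |c₀| * |(n : ℝ)| ≤ |Λ| + (h : ℝ) ^ 2 := by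
            rw [← abs_mul]
            have h6 := abs_sub (c₀ * n + Λ) Λ
            rw [add_sub_cancel_right] at h6
            linarith
          have h6 : |(n : ℝ)| ≤ (|Λ| + (h : ℝ) ^ 2) / |c₀| := by
            rw [le_div_iff₀ hc0', mul_comm]
            exact h5
          have h7 : |(n : ℝ)| ≤ (M : ℝ) := by
            rw [hM]
            exact h6.trans (Nat.le_ceil _)
          exact_mod_cast h7
        · rw [mem_filter]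
          refine ⟨?_, hE0⟩
          rw [mem_Icc, ← abs_le]
          exact hcm.2
      have hcard : ((bad A r g H (C * (h : ℝ) ^ (4 * r - 3))).filter (fun c => c.1 = p)).card =
          (((bad A r g H (C * (h : ℝ) ^ (4 * r - 3))).filter (fun c => c.1 = p)).image (fun c => c.2)).card := by
        refine (Finset.card_image_of_injOn ?_).symm
        intro b hb c hc hbc
        rw [Finset.mem_coe, mem_filter] at hb hc
        exact Prod.ext (hb.2.trans hc.2.symm) hbc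
      rw [hcard]
      have h5 := (Finset.card_le_card hsub).trans Finset.card_biUnion_le
      have h6 : (((((bad A r g H (C * (h : ℝ) ^ (4 * r - 3))).filter (fun c => c.1 = p)).image
          (fun c => c.2)).card : ℕ) : ℝ) ≤
          ∑ n ∈ N, (((Icc (-(H : ℤ)) H).filter (fun q => Exc A (mv g n + (p * n + q)))).card : ℝ) := by
        exact_mod_cast h5
      refine h6.trans ?_
      have hp' : |p| ≤ H := by rw [abs_le]; exact mem_Icc.1 hp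
      have h7 : ∀ n ∈ N, (((Icc (-(H : ℤ)) H).filter (fun q => Exc A (mv g n + (p * n + q)))).card : ℝ) ≤ C₄ := by
        intro n hn
        rw [hN, mem_filter] at hn
        exact hwin H k hH hk hHk n p (hC3k.trans hn.2.2) hp'
      refine (Finset.sum_le_card_nsmul _ _ _ h7).trans ?_
      rw [nsmul_eq_mul]
      gcongr)
  refine hfib.trans ?_
  have h5 : 2 * ((h : ℝ) ^ 2 / |c₀|) + 1 ≤ (2 * ((B : ℝ) ^ 2 / |c₀|) + 1) * (k : ℝ) ^ 2 := by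
    have h6 : (1 : ℝ) ≤ (k : ℝ) ^ 2 := one_le_pow₀ hkr
    have h7 : 2 * ((h : ℝ) ^ 2 / |c₀|) = 2 * ((B : ℝ) ^ 2 / |c₀|) * (k : ℝ) ^ 2 := by
      rw [hhr]; ring
    rw [h7, add_mul, one_mul]
    linarith
  calc 3 * (H : ℝ) * ((2 * ((h : ℝ) ^ 2 / |c₀|) + 1) * C₄)
      ≤ 3 * H * (((2 * ((B : ℝ) ^ 2 / |c₀|) + 1) * (k : ℝ) ^ 2) * C₄) := by gcongr
    _ = 3 * ((2 * ((B : ℝ) ^ 2 / |c₀|) + 1) * C₄) * ((k : ℝ) ^ 2 * H) := by ring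
    _ ≤ _ := by gcongr

/-- **Large arguments.** -/
theorem largeEx (r : ℕ) (hr : 4 ≤ r) (g : Fin (2 * r) → ℤ) (A : ℕ) : ∃ C₁ C₂ : ℝ, 1 ≤ C₁ ∧ 1 ≤ C₂ ∧
    ∀ H k : ℕ, 1 ≤ H → 1 ≤ k → k ^ (2 * r - 1) ≤ H → H ≤ (2 * k) ^ (2 * r - 1) →
      ((bad A r g H (C₁ * (k : ℝ) ^ (4 * r - 3))).card : ℝ) ≤ C₂ * ((H : ℝ) ^ 2 / k) := by
  obtain ⟨B, hB, C₀, hC₀, hfact⟩ := fact r hr g A
  obtain ⟨C₃, C₄, h3, h4, hwin⟩ := win_q r hr g A
  have hBr : (1 : ℝ) ≤ B := by exact_mod_cast hB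
  obtain ⟨C, hC⟩ : ∃ C : ℝ, C = C₀ + C₃ := ⟨_, rfl⟩
  have hC1 : 1 ≤ C := by rw [hC]; linarith
  have hC3 : C₃ ≤ C := by rw [hC]; linarith
  have hF := hfact C (by rw [hC]; linarith)
  have hB1 : (1 : ℝ) ≤ (B : ℝ) ^ (4 * r - 3) := one_le_pow₀ hBr
  have hres : ∃ C₂ : ℝ, 1 ≤ C₂ ∧ ∀ H k : ℕ, 1 ≤ H → 1 ≤ k → k ^ (2 * r - 1) ≤ H → H ≤ (2 * k) ^ (2 * r - 1) →
      ((bad A r g H (C * ((B * k : ℕ) : ℝ) ^ (4 * r - 3))).card : ℝ) ≤ C₂ * ((H : ℝ) ^ 2 / k) := by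
    by_cases hA : ∃ i, 1 ≤ i ∧ i + 4 ≤ r ∧ ¬ (lamb r g i = 0 ∧ al r g i = 0 ∧ be r g i = 0)
    · obtain ⟨h5, h6, h7⟩ := Nat.find_spec hA
      refine large_A r hr g A B hB C hF (Nat.find hA) h5 h6 ?_ h7
      intro i hi hi'
      by_contra hcon
      exact Nat.find_min hA hi' ⟨hi, by omega, hcon⟩
    · have hz : ∀ i, 1 ≤ i → i + 4 ≤ r → lamb r g i = 0 ∧ al r g i = 0 ∧ be r g i = 0 := by
        intro i hi hi'
        by_contra hcon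
        exact hA ⟨i, hi, hi', hcon⟩
      by_cases hab : al r g (r - 3) = 0 ∧ be r g (r - 3) = 0
      · by_cases hl : lamb r g (r - 3) = 0
        · exact large_C r hr g A B hB C hF hz ⟨hl, hab.1, hab.2⟩
        · exact large_B2 r hr g A B hB C C₃ C₄ hF hC3 h3 h4 hwin hz ⟨hl, hab.1, hab.2⟩
      · exact large_B1 r hr g A B hB C hF hC1 hz hab
  obtain ⟨C₂, hC₂, hr2⟩ := hres
  refine ⟨C * (B : ℝ) ^ (4 * r - 3), C₂, by nlinarith, hC₂, ?_⟩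
  intro H k hH hk hkH hHk
  have h5 := hr2 H k hH hk hkH hHk
  have e1 : C * (B : ℝ) ^ (4 * r - 3) * (k : ℝ) ^ (4 * r - 3) = C * ((B * k : ℕ) : ℝ) ^ (4 * r - 3) := by
    rw [Nat.cast_mul, mul_pow]; ring
  rw [e1]
  exact h5

end T9h23.Ab
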