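import Pool.Agent.T9h23.Ab.A8
import Pool.Agent.T9h23.Tr.G1

/-! # The number of pairs with an exceptional value -/

set_option autoImplicit false

namespace T9h23.Ab

open Finset T9h23.Ru T9h23.Pe
open scoped Classical

/-- **The count of the pairs with an exceptional value.** -/
theorem finalA (r : ℕ) (hr : 4 ≤ r) (g : Fin (2 * r) → ℤ) (A : ℕ) : ∃ K : ℝ, 0 < K ∧ ∀ H : ℕ, 1 ≤ H →
    (((Pe.sq H).filter (fun c => ∃ n : ℤ, Exc A (mv g n + (c.1 * n + c.2)))).card : ℝ) ≤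
      K * (H : ℝ) ^ (2 - 1 / ((2 * r - 1 : ℕ) : ℝ)) := by
  obtain ⟨C₁, C₂, h1, h2, hlarge⟩ := largeEx r hr g A
  obtain ⟨C, hC, htot⟩ := totalA r hr g A C₁ h1
  refine ⟨(C + C₂) * 2, by positivity, ?_⟩
  intro H hH
  have hHr : (1 : ℝ) ≤ H := by exact_mod_cast hH
  have ht1 : 1 ≤ 2 * r - 1 := by omega
  obtain ⟨k, hk, hkH, hHk⟩ := T9h23.Tr.root_nat H hH (2 * r - 1) ht1
  obtain ⟨t, ht⟩ : ∃ t : ℕ, t = 2 * r - 1 := ⟨_, rfl⟩
  have hk1 : (1 : ℝ) ≤ k := by exact_mod_cast hk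
  have hHk' : H ≤ (2 * k) ^ (2 * r - 1) := by
    rw [← ht] at hHk ⊢
    have ht0 : (t : ℝ) ≠ 0 := by
      have : t ≠ 0 := by omega
      exact_mod_cast this
    have h3 : ((H : ℝ) ^ (1 / (t : ℝ))) ^ t ≤ (2 * (k : ℝ)) ^ t := by gcongr
    rw [← Real.rpow_natCast ((H : ℝ) ^ (1 / (t : ℝ))) t, ← Real.rpow_mul (by linarith), one_div_mul_cancel ht0,
      Real.rpow_one] at h3
    exact_mod_cast h3
  have hsub : (Pe.sq H).filter (fun c => ∃ n : ℤ, Exc A (mv g n + (c.1 * n + c.2))) ⊆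
      exas g A H (C₁ * (k : ℝ) ^ (4 * r - 3)) ∪ bad A r g H (C₁ * (k : ℝ) ^ (4 * r - 3)) := by
    intro c hc
    rw [mem_filter] at hc
    obtain ⟨hc, n, hn⟩ := hc
    rw [mem_union]
    rcases le_total |(n : ℝ)| (C₁ * (k : ℝ) ^ (4 * r - 3)) with h | h
    · left
      rw [exas, mem_filter]
      exact ⟨hc, n, h, hn⟩
    · right
      rw [mem_bad]
      exact ⟨hc, n, h, hn⟩
  have h3 := (Finset.card_le_card hsub).trans (Finset.card_union_le _ _)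
  have h4 : (((Pe.sq H).filter (fun c => ∃ n : ℤ, Exc A (mv g n + (c.1 * n + c.2)))).card : ℝ) ≤
      ((exas g A H (C₁ * (k : ℝ) ^ (4 * r - 3))).card : ℝ) +
      ((bad A r g H (C₁ * (k : ℝ) ^ (4 * r - 3))).card : ℝ) := by exact_mod_cast h3
  have h5 := htot H k hH hk hkH hHk'
  have h6 := hlarge H k hH hk hkH hHk'
  have h7 : (H : ℝ) ^ 2 / k ≤ 2 * (H : ℝ) ^ (2 - 1 / ((2 * r - 1 : ℕ) : ℝ)) := by
    rw [Real.rpow_sub (by linarith), Real.rpow_two, div_le_iff₀ (by linarith)]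
    have h8 : 0 < (H : ℝ) ^ (1 / ((2 * r - 1 : ℕ) : ℝ)) := by positivity
    have h9 : 2 * ((H : ℝ) ^ 2 / (H : ℝ) ^ (1 / ((2 * r - 1 : ℕ) : ℝ))) * k =
        (H : ℝ) ^ 2 * (2 * k) / (H : ℝ) ^ (1 / ((2 * r - 1 : ℕ) : ℝ)) := by ring
    rw [h9, le_div_iff₀ h8]
    gcongr
  calc _ ≤ _ := h4
    _ ≤ C * ((H : ℝ) ^ 2 / k) + C₂ * ((H : ℝ) ^ 2 / k) := by linarith
    _ = (C + C₂) * ((H : ℝ) ^ 2 / k) := by ring
    _ ≤ (C + C₂) * (2 * (H : ℝ) ^ (2 - 1 / ((2 * r - 1 : ℕ) : ℝ))) := by gcongr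
    _ = _ := by ring

end T9h23.Ab
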